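import Pool.Agent.Lib.MP_7c08ba_nt.RZ.C2.St
import Pool.Agent.Lib.MP_7c08ba_nt.RZ.C.Adapt
import Pool.Agent.Lib.MP_7c08ba_nt.RZ.C.Chain
import Pool.Agent.Lib.MP_7c08ba_nt.RZ.C.Rep

set_option autoImplicit false

/-!
Part (C2): representatives of odd norm, adapted bases for a prime of norm 2, the chain of lattices
attached to an ideal.
-/

namespace Pool.Agent.Lib.MP_7c08ba_nt.RZC2

open NumberField RZC

noncomputable section

namespace Two

variable {F : Type} [Field F] [NumberField F]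

theorem ne_bot {P : Ideal (𝓞 F)} (h : Ideal.absNorm P = 2) : P ≠ ⊥ := by
  rintro rfl
  rw [Ideal.absNorm_bot] at h
  exact absurd h (by norm_num)

theorem isMax {P : Ideal (𝓞 F)} (hP : P.IsPrime) (h : Ideal.absNorm P = 2) : P.IsMaximal :=
  hP.isMaximal (ne_bot h)

theorem isPrime_of {P : Ideal (𝓞 F)} (h : Ideal.absNorm P = 2) : P.IsPrime :=
  Ideal.isPrime_of_irreducible_absNorm (by rw [h]; exact Nat.prime_two)

theorem two_mem {P : Ideal (𝓞 F)} (h : Ideal.absNorm P = 2) : (2 : 𝓞 F) ∈ P := by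
  have := Ideal.absNorm_mem P
  rw [h] at this
  exact_mod_cast this

theorem absNorm_two (hfin : Module.finrank ℚ F = 2) :
    Ideal.absNorm (Ideal.span {(2 : 𝓞 F)}) = 4 := by
  rw [Ideal.absNorm_span_singleton]
  have h1 : (2 : 𝓞 F) = algebraMap ℤ (𝓞 F) 2 := by simp
  rw [h1, Algebra.norm_algebraMap, RingOfIntegers.rank, hfin]
  norm_num

/-- the product of two different primes of norm 2 -/
theorem mul_eq_two (hfin : Module.finrank ℚ F = 2) {P P' : Ideal (𝓞 F)} (hP : P.IsPrime)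
    (hP' : P'.IsPrime) (hne : P ≠ P') (h : Ideal.absNorm P = 2) (h' : Ideal.absNorm P' = 2) :
    P * P' = Ideal.span {(2 : 𝓞 F)} := by
  have hco : IsCoprime P P' := by
    rw [Ideal.isCoprime_iff_sup_eq]
    exact (isMax hP h).coprime_of_ne (isMax hP' h') hne
  have hle : Ideal.span {(2 : 𝓞 F)} ≤ P * P' := by
    rw [Ideal.mul_eq_inf_of_isCoprime hco, Ideal.span_singleton_le_iff_mem]
    exact ⟨two_mem h, two_mem h'⟩
  obtain ⟨K, hK⟩ := Ideal.dvd_iff_le.2 hle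
  have h1 := congrArg Ideal.absNorm hK
  rw [map_mul, map_mul, h, h', absNorm_two hfin] at h1
  have h2 : Ideal.absNorm K = 1 := by omega
  rw [Ideal.absNorm_eq_one_iff] at h2
  rw [hK, h2, Ideal.mul_top]

/-- the other prime above 2 -/
theorem other {D : ℕ} {s : F} (h : FieldC2 D F s) {P : Ideal (𝓞 F)} (hP : P.IsPrime)
    (hN : Ideal.absNorm P = 2) : ∃ P' : Ideal (𝓞 F), P'.IsPrime ∧ P ≠ P' ∧
      Ideal.absNorm P' = 2 ∧ P * P' = Ideal.span {(2 : 𝓞 F)} := by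
  obtain ⟨Q, Q', hQ, hQ', hne, h2, h2'⟩ := h.split
  have h22 := mul_eq_two h.fin hQ hQ' hne h2 h2'
  have hle : Q * Q' ≤ P := by
    rw [h22, Ideal.span_singleton_le_iff_mem]
    exact two_mem hN
  rcases hP.mul_le.1 hle with h1 | h1
  · have he : Q = P := (isMax hQ h2).eq_of_le hP.ne_top h1
    subst he
    exact ⟨Q', hQ', hne, h2', h22⟩
  · have he : Q' = P := (isMax hQ' h2').eq_of_le hP.ne_top h1
    subst he
    exact ⟨Q, hQ, hne.symm, h2, by rw [mul_comm, h22]⟩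

/-- `2` is not in the square of a prime of norm 2 -/
theorem two_not_mem {D : ℕ} {s : F} (h : FieldC2 D F s) {P : Ideal (𝓞 F)} (hP : P.IsPrime)
    (hN : Ideal.absNorm P = 2) : (2 : 𝓞 F) ∉ P ^ 2 := by
  intro h2
  obtain ⟨P', hP', hne, hN', hPP⟩ := other h hP hN
  have h1 : P ^ 2 ∣ P * P' := by
    rw [hPP, Ideal.dvd_span_singleton]
    exact h2
  rw [pow_two] at h1
  have h3 : P ∣ P' := (mul_dvd_mul_iff_left (ne_bot hN)).1 h1
  rw [Ideal.dvd_iff_le] at h3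
  exact hne ((isMax hP' hN').eq_of_le hP.ne_top h3).symm

end Two

theorem stRep2 : StRep2 := by
  intro D F _ _ s hF c
  obtain ⟨I, hI⟩ := ClassGroup.mk0_surjective c⁻¹
  have hI0 : (I : Ideal (𝓞 F)) ≠ ⊥ := nonZeroDivisors.coe_ne_zero I
  have h20 : Ideal.span {(2 : 𝓞 F)} ≠ ⊥ := by
    rw [Ne, Ideal.span_singleton_eq_bot]
    exact two_ne_zero
  have h2t : Ideal.span {(2 : 𝓞 F)} ≠ ⊤ := by
    intro h
    have h1 : Ideal.absNorm (Ideal.span {(2 : 𝓞 F)}) = 1 := Ideal.absNorm_eq_one_iff.2 h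
    rw [Two.absNorm_two hF.fin] at h1
    norm_num at h1
  obtain ⟨a, ha⟩ := IsDedekindDomain.exists_sup_span_eq
    (I := (I : Ideal (𝓞 F)) * Ideal.span {(2 : 𝓞 F)}) (J := (I : Ideal (𝓞 F))) Ideal.mul_le_left
    (mul_ne_zero hI0 h20)
  obtain ⟨K, hK⟩ : (I : Ideal (𝓞 F)) ∣ Ideal.span {a} := by
    rw [Ideal.dvd_iff_le]
    calc Ideal.span {a} ≤ _ := le_sup_right
      _ = _ := ha
  have hsup : Ideal.span {(2 : 𝓞 F)} ⊔ K = ⊤ := by
    rw [hK, ← Ideal.mul_sup] at ha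
    have h1 : (I : Ideal (𝓞 F)) * (Ideal.span {(2 : 𝓞 F)} ⊔ K) = (I : Ideal (𝓞 F)) * 1 := by
      rw [ha, mul_one]
    have h2 := mul_left_cancel₀ hI0 h1
    rw [h2, Ideal.one_eq_top]
  have hK0 : K ≠ ⊥ := by
    rintro rfl
    rw [sup_bot_eq] at hsup
    exact h2t hsup
  have hKm : K ∈ nonZeroDivisors (Ideal (𝓞 F)) := mem_nonZeroDivisors_of_ne_zero hK0
  refine ⟨⟨K, hKm⟩, ?_, odd_absNorm_of_sup K hK0 hsup⟩
  have ha0 : a ≠ 0 := by
    rintro rfl
    rw [Ideal.span_singleton_eq_bot.2 rfl] at hK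
    exact mul_ne_zero hI0 hK0 hK.symm
  have hprod : ClassGroup.mk0 (I * ⟨K, hKm⟩) = 1 := by
    have h1 : (I * ⟨K, hKm⟩ : nonZeroDivisors (Ideal (𝓞 F))) =
        ⟨(I : Ideal (𝓞 F)) * K, mul_mem I.2 hKm⟩ := rfl
    rw [h1, ClassGroup.mk0_eq_one_iff, ← hK]
    exact ⟨⟨a, rfl⟩⟩
  rw [map_mul, hI, inv_mul_eq_one] at hprod
  exact hprod.symm

open Adapt in
/-- adapted bases for a prime of norm 2 -/
theorem stAdapt2 (h : StBasis2) : StAdapt2 := by
  intro q F _ _ s hF σ P hP hN b hb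
  have hP0 : P ≠ ⊥ := Two.ne_bot hN
  have hb1 : P * b ≠ ⊥ := mul_ne_zero hP0 hb
  have hb2 : P ^ 2 * b ≠ ⊥ := mul_ne_zero (pow_ne_zero 2 hP0) hb
  have htop : (⊤ : Ideal (𝓞 F)) ≠ ⊥ := top_ne_bot
  obtain ⟨κ, hκ, h⟩ := h q F s hF σ
  obtain ⟨⟨v₁, v₂, hv⟩, -⟩ := h ⊤ htop
  obtain ⟨⟨x, y, h0⟩, c0⟩ := h b hb
  obtain ⟨⟨x₁, y₁, h1⟩, c1⟩ := h (P * b) hb1
  obtain ⟨⟨x₂, y₂, h2⟩, c2⟩ := h (P ^ 2 * b) hb2
  have j0 := ((c0 x y h0).2 v₁ v₂ hv)
  have j1 := ((c1 x₁ y₁ h1).2 v₁ v₂ hv)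
  have j2 := ((c2 x₂ y₂ h2).2 v₁ v₂ hv)
  have l1 : lat x₁ y₁ ≤ lat x y := by
    intro z hz
    obtain ⟨t, ht, rfl⟩ := (h1.2 z).1 hz
    have ht' : t ∈ b := (Ideal.mul_le_right : P * b ≤ b) ht
    exact (h0.2 _).2 ⟨t, ht', rfl⟩
  have l2 : lat x₂ y₂ ≤ lat x₁ y₁ := by
    intro z hz
    obtain ⟨t, ht, rfl⟩ := (h2.2 z).1 hz
    rw [pow_two, mul_assoc] at ht
    have ht' : t ∈ P * b := (Ideal.mul_le_right : P * (P * b) ≤ P * b) ht
    exact (h1.2 _).2 ⟨t, ht', rfl⟩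
  have hbN : Ideal.absNorm b ≠ 0 := by
    rw [Ne, Ideal.absNorm_eq_zero_iff]
    exact hb
  have n1 : Ideal.absNorm (P * b) = 2 * Ideal.absNorm b := by rw [map_mul, hN]
  have n2 : Ideal.absNorm (P ^ 2 * b) = 2 * (2 * Ideal.absNorm b) := by
    rw [map_mul, map_pow, hN]
    ring
  have i1 : (lat x₁ y₁).toAddSubgroup.relIndex (lat x y).toAddSubgroup = 2 := by
    have := AddSubgroup.relIndex_mul_relIndex (lat x₁ y₁).toAddSubgroup (lat x y).toAddSubgroup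
      (lat v₁ v₂).toAddSubgroup l1 j0.1
    rw [j0.2, j1.2, n1] at this
    exact Nat.eq_of_mul_eq_mul_right (Nat.pos_of_ne_zero hbN) this
  have i2 : (lat x₂ y₂).toAddSubgroup.relIndex (lat x₁ y₁).toAddSubgroup = 2 := by
    have := AddSubgroup.relIndex_mul_relIndex (lat x₂ y₂).toAddSubgroup
      (lat x₁ y₁).toAddSubgroup (lat v₁ v₂).toAddSubgroup l2 j1.1
    rw [j1.2, j2.2, n1, n2] at this
    exact Nat.eq_of_mul_eq_mul_right (by have := Nat.pos_of_ne_zero hbN; positivity) this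
  have hc : ∃ z ∈ lat x y, 2 * z ∉ lat x₂ y₂ := by
    by_contra hcon
    push Not at hcon
    apply Two.two_not_mem hF hP hN
    have hdvd : P ^ 2 * b ∣ Ideal.span {(2 : 𝓞 F)} * b := by
      rw [Ideal.dvd_iff_le, Ideal.span_singleton_mul_le_iff]
      intro z hz
      have h3 := hcon (σ (z : F)) ((h0.2 _).2 ⟨z, hz, rfl⟩)
      obtain ⟨t, ht, h4⟩ := (h2.2 _).1 h3
      have h5 : t = 2 * z := by
        apply RingOfIntegers.ext
        apply σ.injective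
        rw [h4]
        have e : ((2 * z : 𝓞 F) : F) = 2 * (z : F) := by
          change algebraMap (𝓞 F) F (2 * z) = _
          rw [map_mul, map_ofNat]
        rw [e, map_mul, map_ofNat]
      rw [← h5]
      exact ht
    rw [mul_dvd_mul_iff_right (show b ≠ 0 from hb), Ideal.dvd_span_singleton] at hdvd
    exact hdvd
  obtain ⟨u, v, e0, e1, e2⟩ := four_step l1 l2 i1 i2 hc
  have hne := im_ne h0.1 e0
  have hsign : ∃ u' : ℂ, (∀ t : ℂ, lat u' t = lat u t) ∧ Pos u' v := by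
    rcases lt_or_gt_of_ne hne with h3 | h3
    · refine ⟨-u, fun t => lat_neg u t, ?_⟩
      unfold Pos
      rw [neg_div, Complex.neg_im]
      linarith
    · exact ⟨u, fun t => rfl, h3⟩
  obtain ⟨u', hu', hpos⟩ := hsign
  have p4 : Pos u' (4 * v) := by
    have := hpos.scale (r := 1 / 4) (by norm_num)
    convert this using 1
    push_cast
    ring
  refine ⟨u', 4 * v, IsB.congr h2 (by rw [hu', e2]) p4,
    IsB.congr h1 ?_ p4.half, IsB.congr h0 ?_ p4.quarter⟩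
  · rw [hu', e1]
    congr 1
    ring
  · rw [hu', show 4 * v / 4 = v by ring, e0]

theorem stChain2 (h : StAdapt2) : StChain2 := by
  intro q F _ _ s hF σ P hP hN m x hm hx a ha
  have hP0 : P ≠ ⊥ := by
    rintro rfl
    simp at hN
  have hx0 : x ≠ 0 := by
    rintro rfl
    rw [Ideal.span_singleton_eq_bot.2 rfl] at hx
    exact pow_ne_zero m hP0 hx
  have hc : σ (x : F) ≠ 0 := by
    rw [Ne, map_eq_zero]
    simpa using hx0
  have hle : ∀ i : ℕ, i + 2 ≤ m * (i + 2) := fun i => Nat.le_mul_of_pos_left _ hm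
  have hb : ∀ i : ℕ, P ^ (m * (i + 2) - (i + 2)) * a ≠ ⊥ := fun i =>
    mul_ne_zero (pow_ne_zero _ hP0) ha
  choose w₁ w₂ hA hB hC using fun i : ℕ => h q F s hF σ P hP hN _ (hb i)
  set c := σ (x : F) with hcdef
  have hck : ∀ k : ℕ, c ^ k ≠ 0 := fun k => pow_ne_zero k hc
  -- the three lattices
  have eA : ∀ i z, z ∈ lat (w₁ i / c ^ (i + 1)) (w₂ i / c ^ (i + 1)) ↔
      ChS σ P a c (i + 1) (m * (i + 2) - (i + 2) + 2) z := by
    intro i z
    rw [mem_lat_div _ _ _ _ (hck _), (hA i).2, ← mul_assoc, ← pow_add, add_comm 2]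
    rfl
  have eB : ∀ i z, z ∈ lat (w₁ i / c ^ (i + 1)) (w₂ i / c ^ (i + 1) / 2) ↔
      ChS σ P a c (i + 1) (m * (i + 2) - (i + 2) + 1) z := by
    intro i z
    rw [div_right_comm, mem_lat_div _ _ _ _ (hck _), (hB i).2, ← mul_assoc, ← pow_succ']
    rfl
  have eC : ∀ i z, z ∈ lat (w₁ i / c ^ (i + 1)) (w₂ i / c ^ (i + 1) / 4) ↔
      ChS σ P a c (i + 1) (m * (i + 2) - (i + 2)) z := by
    intro i z
    rw [div_right_comm, mem_lat_div _ _ _ _ (hck _), (hC i).2]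
    rfl
  have hpos : ∀ i, Pos (w₁ i / c ^ (i + 1)) (w₂ i / c ^ (i + 1)) := by
    intro i
    unfold Pos
    rw [div_div_div_cancel_right₀ (hck _)]
    exact (hA i).1
  have hsh := fun k n j z => chS_shift σ P a m x hx hc k n j z
  refine ⟨fun i => w₁ i / c ^ (i + 1), fun i => w₂ i / c ^ (i + 1),
    ⟨hpos, ?_, ?_, ?_, hc⟩, ?_⟩
  · intro i
    ext z
    rw [eA, eB, ← hsh (i + 1) _ 1 z]
    have h1 := hle i
    have h2 := hle (i + 1)
    have h3 : m * (i + 1 + 2) = m * (i + 2) + m * 1 := by ring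
    have : m * (i + 1 + 2) - (i + 1 + 2) + 2 = m * (i + 2) - (i + 2) + 1 + m * 1 := by omega
    rw [this]
  · intro i
    ext z
    rw [eB, eC, ← hsh (i + 1) _ 1 z]
    have h1 := hle i
    have h2 := hle (i + 1)
    have h3 : m * (i + 1 + 2) = m * (i + 2) + m * 1 := by ring
    have : m * (i + 1 + 2) - (i + 1 + 2) + 1 = m * (i + 2) - (i + 2) + m * 1 := by omega
    rw [this]
  · intro i
    ext z
    rw [mem_lat_mul _ _ _ _ hc, eA, eA]
    obtain ⟨r, rfl⟩ : ∃ r, m = r + 1 := ⟨m - 1, by omega⟩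
    rw [← hsh (i + 1) _ r z]
    have h1 := hle i
    have h2 := hle (i + (r + 1))
    have h3 : (r + 1) * (i + (r + 1) + 2) = (r + 1) * (i + 2) + (r + 1) * r + (r + 1) := by ring
    have : (r + 1) * (i + (r + 1) + 2) - (i + (r + 1) + 2) + 2 =
        (r + 1) * (i + 2) - (i + 2) + 2 + (r + 1) * r := by omega
    rw [this]
    have e : c ^ (i + (r + 1) + 1) * (z / c) = c ^ (i + 1 + r) * z := by
      rw [show i + (r + 1) + 1 = (i + 1 + r) + 1 by ring, pow_succ]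
      field_simp
    unfold ChS
    rw [e]
  · intro i hi
    refine ⟨hpos i, fun z => ?_⟩
    rw [eA]
    have h1 := hle i
    have h3 : m * (i + 2) = m * (i + 1) + m := by ring
    have : m * (i + 2) - (i + 2) + 2 = m - i + m * (i + 1) := by omega
    have h4 : i + 1 = 0 + (i + 1) := by ring
    rw [this]
    have h5 := hsh 0 (m - i) (i + 1) z
    rw [zero_add] at h5
    rw [h5]
    unfold ChS
    simp

end

end Pool.Agent.Lib.MP_7c08ba_nt.RZC2
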