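import Pool.Agent.Lib.MP_7c08ba_nt.RZ.C2.St
import Pool.Agent.Lib.MP_7c08ba_nt.RZ.C.Sum
import Pool.Agent.Lib.MP_7c08ba_nt.RZ.C3.Sum3

set_option autoImplicit false

/-! Part (C2): the sum over the classes is not zero. -/

namespace Pool.Agent.Lib.MP_7c08ba_nt.RZC2

open UpperHalfPlane ModularForm EisensteinSeries MatrixGroups NumberField RZC
open scoped Real Manifold ComplexConjugate nonZeroDivisors

noncomputable section

open SumAux in
theorem stSum2 (h2 : StBasis2) (h3 : StUnit2) (h4 : StRep2) (h5 : StChain2)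
    (h6 : StOrdC) (h7 : StOdd) (h8 : StLat) : StSum2 := by
  intro D F _ _ s hF σ A hA k ψ hk4 hk hψ S hS1 hS2 hS3 rep w₁ w₂ hrep hw
  -- the prime above 2 and the chains
  obtain ⟨⟨P, hPz⟩, hP, hPn, hPu⟩ := h3 D F s hF σ A hA
  set m : ℕ := orderOf (ClassGroup.mk0 (⟨P, hPz⟩ : (Ideal (𝓞 F))⁰)) with hm
  have hm0 : 0 < m := orderOf_pos _
  obtain ⟨x, hx⟩ : ∃ x : 𝓞 F, P ^ m = Ideal.span {x} := by
    have h : ClassGroup.mk0 (⟨P ^ m, pow_mem hPz m⟩ : (Ideal (𝓞 F))⁰) = 1 := by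
      have h' : (⟨P ^ m, pow_mem hPz m⟩ : (Ideal (𝓞 F))⁰) = ⟨P, hPz⟩ ^ m := rfl
      rw [h', map_pow, hm]
      exact pow_orderOf_eq_one _
    obtain ⟨x, hx⟩ := (ClassGroup.mk0_eq_one_iff _).mp h
    exact ⟨x, hx⟩
  have hU : UnitC A m (σ (x : F)) := hPu x hx
  set N : ℕ := (Subgroup.zpowers (ClassGroup.mk0 (⟨P, hPz⟩ : (Ideal (𝓞 F))⁰))).index with hN
  have hNodd : Odd N := hF.cls ⟨P, hPz⟩ hPn
  -- the values at an ideal
  have hval : ∀ a : Ideal (𝓞 F), a ≠ ⊥ → ∃ u v : ℕ → ℂ, Chain m (σ (x : F)) u v ∧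
      ∀ i ≤ m, IsB σ (P ^ (m - i) * a) (u i) (v i) := h5 D F s hF σ P hP hPn m x hm0 hx
  -- the lattice of the ring of integers
  obtain ⟨u0, v0, hc0, hb0⟩ := hval ⊤ (by simp)
  have hB0 : IsB σ ⊤ (u0 m) (v0 m) := by
    have := hb0 m le_rfl
    rwa [Nat.sub_self, pow_zero, one_mul] at this
  have hO0 : Ord A (u0 m) (v0 m) := ((h6 A hA m _ u0 v0 hm0 hc0 hU).1 m).1
  obtain ⟨he0, -⟩ := hS3 m _ u0 v0 hm0 hc0 hU m
  set E : ℂ := eb k (e4 (u0 m) (v0 m)) (e6 (u0 m) (v0 m)) with hE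
  -- representatives of odd norm and their chains
  choose a ha hodd using h4 D F s hF
  choose u v hc hb using fun c => hval (a c : Ideal (𝓞 F)) (ne_bot_coe (a c))
  have hBm : ∀ c, IsB σ (a c : Ideal (𝓞 F)) (u c m) (v c m) := by
    intro c
    have := hb c m le_rfl
    rwa [Nat.sub_self, pow_zero, one_mul] at this
  -- change of representatives
  have hsum : ∑ c, ψ (rep c : Ideal (𝓞 F)) * S (w₁ c) (w₂ c) =
      ∑ c, ψ (a c : Ideal (𝓞 F)) * S (u c m) (v c m) :=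
    Finset.sum_congr rfl fun c _ =>
      val_class hψ hS1 hS2 ((hrep c).trans (ha c).symm) (hw c) (hBm c)
  rw [hsum]
  -- one term
  have hterm : ∀ c, ψ (a c : Ideal (𝓞 F)) * S (u c m) (v c m) / E - jv (u c m) (v c m) ∈
      A.nonunits := by
    intro c
    obtain ⟨he, hSv⟩ := hS3 m _ (u c) (v c) hm0 (hc c) hU m
    have hO : Ord A (u c m) (v c m) := ((h6 A hA m _ (u c) (v c) hm0 (hc c) hU).1 m).1
    obtain ⟨hle, hidx⟩ := ((h2 D F s hF σ).choose_spec.2 (a c : Ideal (𝓞 F))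
      (ne_bot_coe (a c))).2 _ _ (hBm c) |>.2 _ _ hB0
    obtain ⟨-, h64, h66⟩ := h7 A hA _ _ hO0 _ _ (hBm c).1 hle (by rw [hidx]; exact hodd c)
    have hr := eb_ratio k h64 h66
    have := triple (hψ.triv _ (hodd c)) hSv hr hO.2.2
    have h9 : ψ (a c : Ideal (𝓞 F)) * S (u c m) (v c m) / E =
        ψ (a c : Ideal (𝓞 F)) * (S (u c m) (v c m) /
          eb k (e4 (u c m) (v c m)) (e6 (u c m) (v c m))) *
          (eb k (e4 (u c m) (v c m)) (e6 (u c m) (v c m)) /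
            eb k (e4 (u0 m) (v0 m)) (e6 (u0 m) (v0 m))) := by
      rw [hE]
      field_simp
    rw [h9]
    exact this
  -- the sum of the `j`-values
  have hJ : ∑ c, jv (u c m) (v c m) - (N : ℂ) ∈ A.nonunits := by
    -- the values on the chains
    have hch : ∀ c, ∀ i < m, jv (u c (i + 1)) (v c (i + 1)) =
        jv (u (ClassGroup.mk0 ⟨P, hPz⟩ ^ (m - 1 - i) * c) m)
          (v (ClassGroup.mk0 ⟨P, hPz⟩ ^ (m - 1 - i) * c) m) := by
      intro c i hi
      have hB := hb c (i + 1) hi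
      rw [show m - (i + 1) = m - 1 - i by omega] at hB
      have hcl : ClassGroup.mk0 ((⟨P, hPz⟩ : (Ideal (𝓞 F))⁰) ^ (m - 1 - i) * a c) =
          ClassGroup.mk0 (a (ClassGroup.mk0 ⟨P, hPz⟩ ^ (m - 1 - i) * c)) := by
        rw [ha, map_mul, map_pow, ha]
      exact jv_class h8 hcl hB (hBm _)
    have hchain : ∀ c, (∑ i ∈ Finset.range m, jv (u c (i + 1)) (v c (i + 1))) - 1 ∈
        A.nonunits := fun c => (h6 A hA m _ (u c) (v c) hm0 (hc c) hU).2
    -- the same sum in terms of powers of the class of `P`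
    have hcyc : ∀ c, (∑ i ∈ Finset.range m, jv (u (ClassGroup.mk0 ⟨P, hPz⟩ ^ i * c) m)
        (v (ClassGroup.mk0 ⟨P, hPz⟩ ^ i * c) m)) - 1 ∈ A.nonunits := by
      intro c
      have h9 := hchain c
      rw [Finset.sum_congr rfl fun i hi => hch c i (Finset.mem_range.mp hi)] at h9
      rw [Finset.sum_range_reflect (fun i => jv (u (ClassGroup.mk0 ⟨P, hPz⟩ ^ i * c) m)
          (v (ClassGroup.mk0 ⟨P, hPz⟩ ^ i * c) m)) m] at h9
      exact h9
    obtain ⟨T, hTc, hT⟩ := RZC3.Sum3Aux.sum_cosets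
      (ClassGroup.mk0 (⟨P, hPz⟩ : (Ideal (𝓞 F))⁰)) (fun c => jv (u c m) (v c m))
    rw [← hm] at hT
    have h12 : ∑ c, jv (u c m) (v c m) - (N : ℂ) =
        ∑ q ∈ T, ((∑ i ∈ Finset.range m, jv (u (ClassGroup.mk0 ⟨P, hPz⟩ ^ i * q) m)
        (v (ClassGroup.mk0 ⟨P, hPz⟩ ^ i * q) m)) - 1) := by
      rw [Finset.sum_sub_distrib, Finset.sum_const, hTc, ← hN, nsmul_eq_mul, hT, mul_one]
    rw [h12]
    exact sum_nonunits T _ fun q _ => hcyc q
  -- the index is odd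
  have hN1 : (N : ℂ) - 1 ∈ A.nonunits := by
    have := odd_sub_one hA (n := (N : ℤ)) (by exact_mod_cast hNodd)
    simpa using this
  -- conclusion
  have htot : ∑ c, ψ (a c : Ideal (𝓞 F)) * S (u c m) (v c m) / E - 1 ∈ A.nonunits := by
    have h9 := sum_nonunits Finset.univ _ fun c (_ : c ∈ Finset.univ) => hterm c
    rw [Finset.sum_sub_distrib] at h9
    have := nonunits_add (nonunits_add h9 hJ) hN1
    rwa [sub_add_sub_cancel, sub_add_sub_cancel] at this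
  rw [← Finset.sum_div] at htot
  intro h0
  rw [h0, zero_div] at htot
  exact (unit_of_sub_one htot).2.2.1 rfl

end

end Pool.Agent.Lib.MP_7c08ba_nt.RZC2
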