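import Pool.Agent.Lib.MP_7c08ba_nt.RZ.C2.Chain2
import Pool.Agent.Lib.MP_7c08ba_nt.RZ.C3.Unit3

set_option autoImplicit false

/-! Part (C2): the prime above 2 attached to `A`. -/

namespace Pool.Agent.Lib.MP_7c08ba_nt.RZC2

open NumberField RZC RZC2.Two
open RZC3.Unit3Aux (tau int_memA pr mem_pr pr_prime)

noncomputable section

namespace Unit2Aux

variable {F : Type} [Field F] [NumberField F]

section arith

variable {P P' : Ideal (𝓞 F)}

/-- integers in a power of `P` -/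
theorem int_dvd (hP : P.IsPrime) (hP' : P'.IsPrime) (hne : P ≠ P') (h : Ideal.absNorm P = 2)
    (h' : Ideal.absNorm P' = 2) (h2 : P * P' = Ideal.span {(2 : 𝓞 F)}) (k : ℕ) (n : ℤ)
    (hn : (n : 𝓞 F) ∈ P ^ k) : (2 : ℤ) ^ k ∣ n := by
  induction k with
  | zero => simp
  | succ k ih =>
    obtain ⟨n', rfl⟩ := ih (Ideal.pow_le_pow_right (Nat.le_succ k) hn)
    have hPp : Prime P := Ideal.prime_of_isPrime (ne_bot h) hP
    have h1 : P ^ (k + 1) ∣ Ideal.span {(((2 : ℤ) ^ k * n' : ℤ) : 𝓞 F)} := by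
      rw [Ideal.dvd_span_singleton]
      exact hn
    have h3 : Ideal.span {(((2 : ℤ) ^ k * n' : ℤ) : 𝓞 F)} =
        P ^ k * (P' ^ k * Ideal.span {(n' : 𝓞 F)}) := by
      rw [← mul_assoc, ← mul_pow, h2, Ideal.span_singleton_pow,
        Ideal.span_singleton_mul_span_singleton]
      congr 2
      push_cast
      rfl
    rw [h3, pow_succ, mul_dvd_mul_iff_left (pow_ne_zero k (ne_bot h))] at h1
    rcases hPp.dvd_or_dvd h1 with h4 | h4
    · have h5 := hPp.dvd_of_dvd_pow h4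
      rw [Ideal.dvd_iff_le] at h5
      exact absurd ((isMax hP' h').eq_of_le hP.ne_top h5).symm hne
    · rw [Ideal.dvd_span_singleton] at h4
      rw [pow_succ]
      apply mul_dvd_mul_left
      by_contra h6
      rw [← even_iff_two_dvd, Int.not_even_iff_odd] at h6
      obtain ⟨t, rfl⟩ := h6
      apply hP.ne_top
      rw [Ideal.eq_top_iff_one]
      have h7 := P.sub_mem h4 (P.mul_mem_right (t : 𝓞 F) (two_mem h))
      have h8 : (((2 * t + 1 : ℤ) : 𝓞 F)) - 2 * (t : 𝓞 F) = 1 := by push_cast; ring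
      rwa [h8] at h7

/-- every element is an integer modulo `P ^ k` -/
theorem exists_int (hP : P.IsPrime) (hP' : P'.IsPrime) (hne : P ≠ P') (h : Ideal.absNorm P = 2)
    (h' : Ideal.absNorm P' = 2) (h2 : P * P' = Ideal.span {(2 : 𝓞 F)}) (k : ℕ) (x : 𝓞 F) :
    ∃ n : ℤ, x - n ∈ P ^ k := by
  have hcard : Nat.card (𝓞 F ⧸ P ^ k) = 2 ^ k := by
    have h1 : Ideal.absNorm (P ^ k) = 2 ^ k := by rw [map_pow, h]
    rw [Ideal.absNorm_apply, Submodule.cardQuot_apply] at h1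
    exact h1
  have hfin : Finite (𝓞 F ⧸ P ^ k) := Nat.finite_of_card_ne_zero (by rw [hcard]; positivity)
  let g : Fin (2 ^ k) → 𝓞 F ⧸ P ^ k := fun i => Ideal.Quotient.mk (P ^ k) ((i : ℕ) : 𝓞 F)
  have hinj : Function.Injective g := by
    intro i j hij
    have h1 : (((i : ℕ) : 𝓞 F)) - ((j : ℕ) : 𝓞 F) ∈ P ^ k := by
      rw [← Ideal.Quotient.eq_zero_iff_mem, map_sub, sub_eq_zero]
      exact hij
    have h3 : ((((i : ℕ) : ℤ) - ((j : ℕ) : ℤ) : ℤ) : 𝓞 F) ∈ P ^ k := by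
      push_cast
      exact h1
    have h4 := int_dvd hP hP' hne h h' h2 k _ h3
    have hi : ((i : ℕ) : ℤ) < 2 ^ k := by exact_mod_cast i.2
    have hj : ((j : ℕ) : ℤ) < 2 ^ k := by exact_mod_cast j.2
    have h5 : ((i : ℕ) : ℤ) - ((j : ℕ) : ℤ) = 0 :=
      Int.eq_zero_of_abs_lt_dvd h4 (by rw [abs_lt]; constructor <;> omega)
    apply Fin.ext
    omega
  have hbij : Function.Bijective g := by
    have := Fintype.ofFinite (𝓞 F ⧸ P ^ k)
    rw [Fintype.bijective_iff_injective_and_card]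
    refine ⟨hinj, ?_⟩
    rw [Fintype.card_fin, ← Nat.card_eq_fintype_card, hcard]
  obtain ⟨i, hi⟩ := hbij.2 (Ideal.Quotient.mk (P ^ k) x)
  refine ⟨((i : ℕ) : ℤ), ?_⟩
  rw [← Ideal.Quotient.eq_zero_iff_mem, map_sub, sub_eq_zero, ← hi]
  push_cast
  rfl

/-- the fourth power of an element which is not `± 1` modulo `8` -/
theorem four_sub (hP : P.IsPrime) (hP' : P'.IsPrime) (hne : P ≠ P') (h : Ideal.absNorm P = 2)
    (h' : Ideal.absNorm P' = 2) (h2 : P * P' = Ideal.span {(2 : 𝓞 F)}) {x : 𝓞 F} (hx : x ∉ P)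
    (hx2 : x ^ 2 - 1 ∉ P ^ 4) : x ^ 4 - 17 ∈ P ^ 5 := by
  obtain ⟨n, hn⟩ := exists_int hP hP' hne h h' h2 5 x
  have hn4 : x - n ∈ P ^ 4 := Ideal.pow_le_pow_right (by norm_num) hn
  have hn1 : x - n ∈ P := Ideal.pow_le_self (by norm_num : (5 : ℕ) ≠ 0) hn
  have hodd : n % 2 = 1 := by
    rcases Int.emod_two_eq_zero_or_one n with h0 | h1
    · exfalso
      apply hx
      obtain ⟨t, rfl⟩ := Int.dvd_of_emod_eq_zero h0
      have h3 := P.add_mem hn1 (P.mul_mem_right (t : 𝓞 F) (two_mem h))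
      have h4 : x - ((2 * t : ℤ) : 𝓞 F) + 2 * (t : 𝓞 F) = x := by push_cast; ring
      rwa [h4] at h3
    · exact h1
  have h16 : (16 : 𝓞 F) ∈ P ^ 4 := by
    have := Ideal.pow_mem_pow (two_mem h) 4
    norm_num at this
    exact this
  have h32 : (32 : 𝓞 F) ∈ P ^ 5 := by
    have := Ideal.pow_mem_pow (two_mem h) 5
    norm_num at this
    exact this
  have hn16 : ¬ (16 : ℤ) ∣ n ^ 2 - 1 := by
    rintro ⟨t, ht⟩
    apply hx2
    have h3 : x ^ 2 - 1 = (x + n) * (x - n) + t * 16 := by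
      have h4 : (n : 𝓞 F) ^ 2 - 1 = 16 * t := by exact_mod_cast congrArg (fun z : ℤ => (z : 𝓞 F)) ht
      linear_combination h4
    rw [h3]
    exact Ideal.add_mem _ (Ideal.mul_mem_left _ _ hn4) (Ideal.mul_mem_left _ _ h16)
  have hn32 : (32 : ℤ) ∣ n ^ 4 - 17 := by
    obtain ⟨a, b, hab, hb⟩ : ∃ a b : ℤ, n = 8 * a + b ∧ (b = 1 ∨ b = 3 ∨ b = 5 ∨ b = 7) :=
      ⟨n / 8, n % 8, by omega, by omega⟩
    subst hab
    rcases hb with rfl | rfl | rfl | rfl
    · exfalso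
      exact hn16 ⟨4 * a ^ 2 + a, by ring⟩
    · exact ⟨128 * a ^ 4 + 192 * a ^ 3 + 108 * a ^ 2 + 27 * a + 2, by ring⟩
    · exact ⟨128 * a ^ 4 + 320 * a ^ 3 + 300 * a ^ 2 + 125 * a + 19, by ring⟩
    · exfalso
      exact hn16 ⟨4 * a ^ 2 + 7 * a + 3, by ring⟩
  obtain ⟨t, ht⟩ := hn32
  have h3 : x ^ 4 - 17 = (x ^ 3 + x ^ 2 * n + x * n ^ 2 + n ^ 3) * (x - n) + t * 32 := by
    have h4 : (n : 𝓞 F) ^ 4 - 17 = 32 * t := by exact_mod_cast congrArg (fun z : ℤ => (z : 𝓞 F)) ht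
    linear_combination h4
  rw [h3]
  exact Ideal.add_mem _ (Ideal.mul_mem_left _ _ hn) (Ideal.mul_mem_left _ _ h32)

end arith

section main

variable (σ : F →+* ℂ) {A : ValuationSubring ℂ}

theorem main (hfin : Module.finrank ℚ F = 2) {P' : Ideal (𝓞 F)} (hP' : P'.IsPrime)
    (hne : pr σ A ≠ P') (h : Ideal.absNorm (pr σ A) = 2) (h' : Ideal.absNorm P' = 2)
    (m : ℕ) (hrig : ∀ (x : 𝓞 F), P' ^ m = Ideal.span {x} →
      x ^ 2 - 1 ∉ (pr σ A) ^ 4)
    (x : 𝓞 F) (hx : (pr σ A) ^ m = Ideal.span {x}) :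
    UnitC A m (tau σ x) := by
  have hP : (pr σ A).IsPrime := pr_prime σ
  have hmax := isMax hP h
  have hmax' := isMax hP' h'
  have h2 : pr σ A * P' = Ideal.span {(2 : 𝓞 F)} := mul_eq_two hfin hP hP' hne h h'
  -- the conjugate generator
  have h2m : Ideal.span {x} * P' ^ m = Ideal.span {(2 : 𝓞 F) ^ m} := by
    rw [← hx, ← mul_pow, h2, Ideal.span_singleton_pow]
  have hmem : (2 : 𝓞 F) ^ m ∈ Ideal.span {x} := by
    have h1 : (2 : 𝓞 F) ^ m ∈ Ideal.span {x} * P' ^ m := by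
      rw [h2m]; exact Ideal.mem_span_singleton_self _
    have h3 : Ideal.span {x} * P' ^ m ≤ Ideal.span {x} := Ideal.mul_le_left
    exact h3 h1
  obtain ⟨x', hx'⟩ := Ideal.mem_span_singleton.1 hmem
  have h20 : (2 : 𝓞 F) ^ m ≠ 0 := pow_ne_zero m two_ne_zero
  have hx0 : x ≠ 0 := by
    rintro rfl
    rw [zero_mul] at hx'
    exact h20 hx'
  have hP'm : P' ^ m = Ideal.span {x'} := by
    have h1 : Ideal.span {x} * P' ^ m = Ideal.span {x} * Ideal.span {x'} := by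
      rw [h2m, hx', Ideal.span_singleton_mul_span_singleton]
    have h3 : (Ideal.span {x} : Ideal (𝓞 F)) ≠ 0 := by
      rw [Ne, Ideal.zero_eq_bot, Ideal.span_singleton_eq_bot]
      exact hx0
    exact mul_left_cancel₀ h3 h1
  have hx'P : x' ∉ pr σ A := by
    intro hc
    have h1 : P' ^ m ≤ pr σ A := by
      rw [hP'm, Ideal.span_singleton_le_iff_mem]
      exact hc
    have h3 : P' ≤ pr σ A := hP.le_of_pow_le h1
    exact hne (hmax'.eq_of_le hP.ne_top h3).symm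
  have hτ : tau σ x * tau σ x' = 2 ^ m := by
    rw [← map_mul, ← hx', map_pow, map_ofNat]
  have hτx : tau σ x ≠ 0 := by
    intro h0
    rw [h0, zero_mul] at hτ
    exact pow_ne_zero m two_ne_zero hτ.symm
  have hdiv : 2 ^ m / tau σ x = tau σ x' := by
    rw [← hτ]
    field_simp
  have hu : tau σ x' ∈ A := int_memA σ x'
  have hu1 : tau σ x' ∉ A.nonunits := hx'P
  -- the fourth power
  have hy := four_sub hP hP' hne h h' h2 hx'P (hrig x' hP'm)
  set y : 𝓞 F := x' ^ 4 - 17 with hyd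
  obtain ⟨t, ht', ht⟩ : ∃ t ∈ P', t ∉ pr σ A := by
    by_contra hcon
    push Not at hcon
    exact hne (hmax'.eq_of_le hP.ne_top hcon).symm
  have hyt : y * t ^ 5 ∈ Ideal.span {(32 : 𝓞 F)} := by
    have h1 : y * t ^ 5 ∈ (pr σ A) ^ 5 * P' ^ 5 :=
      Ideal.mul_mem_mul hy (Ideal.pow_mem_pow ht' 5)
    rw [← mul_pow, h2, Ideal.span_singleton_pow] at h1
    norm_num at h1
    exact h1
  obtain ⟨s', hs'⟩ := Ideal.mem_span_singleton.1 hyt
  have hti : (tau σ t)⁻¹ ∈ A := inv_mem_of_not_nonunits (int_memA σ t) ht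
  have ht0 : tau σ t ≠ 0 := by
    intro h0
    apply ht
    rw [mem_pr, h0]
    exact zero_nonunits
  have hτy : tau σ x' ^ 4 - 17 = tau σ y := by
    rw [hyd, map_sub, map_pow, map_ofNat]
  have hτs : tau σ y * tau σ t ^ 5 = 32 * tau σ s' := by
    rw [← map_pow, ← map_mul, hs', map_mul, map_ofNat]
  have hfrac : tau σ y / 32 = tau σ s' * (tau σ t)⁻¹ ^ 5 := by
    field_simp
    linear_combination hτs
  unfold UnitC
  rw [hdiv, hτy]
  refine ⟨hu, inv_mem_of_not_nonunits hu hu1, ?_⟩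
  rw [hfrac]
  exact A.mul_mem _ _ (int_memA σ s') (pow_mem hti 5)

end main

end Unit2Aux

open Unit2Aux in
theorem stUnit2 : StUnit2 := by
  intro D F _ _ s h σ A hA
  have hP : (pr σ A).IsPrime := pr_prime σ
  have key : ∀ Q Q' : Ideal (𝓞 F), Q.IsPrime → Q'.IsPrime → Q ≠ Q' → Ideal.absNorm Q = 2 →
      Ideal.absNorm Q' = 2 → Q ≤ pr σ A → ∃ P : nonZeroDivisors (Ideal (𝓞 F)),
        (P : Ideal (𝓞 F)).IsPrime ∧ Ideal.absNorm (P : Ideal (𝓞 F)) = 2 ∧ ∀ x : 𝓞 F,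
        (P : Ideal (𝓞 F)) ^ orderOf (ClassGroup.mk0 P) = Ideal.span {x} →
        UnitC A (orderOf (ClassGroup.mk0 P)) (σ (x : F)) := by
    intro Q Q' hQ hQ' hne h3 h3' hle
    have he : Q = pr σ A := (isMax hQ h3).eq_of_le hP.ne_top hle
    subst he
    have hz : pr σ A ∈ nonZeroDivisors (Ideal (𝓞 F)) :=
      mem_nonZeroDivisors_of_ne_zero (ne_bot h3)
    have hz' : Q' ∈ nonZeroDivisors (Ideal (𝓞 F)) := mem_nonZeroDivisors_of_ne_zero (ne_bot h3')
    -- the classes are inverse to each other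
    have hcl : ClassGroup.mk0 (⟨Q', hz'⟩ : nonZeroDivisors (Ideal (𝓞 F))) =
        (ClassGroup.mk0 (⟨pr σ A, hz⟩ : nonZeroDivisors (Ideal (𝓞 F))))⁻¹ := by
      rw [eq_inv_iff_mul_eq_one, ← map_mul, ClassGroup.mk0_eq_one_iff]
      refine ⟨2, ?_⟩
      have h1 := mul_eq_two h.fin hQ' hQ hne.symm h3' h3
      exact h1
    have hord : orderOf (ClassGroup.mk0 (⟨Q', hz'⟩ : nonZeroDivisors (Ideal (𝓞 F)))) =
        orderOf (ClassGroup.mk0 (⟨pr σ A, hz⟩ : nonZeroDivisors (Ideal (𝓞 F)))) := by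
      rw [hcl, orderOf_inv]
    refine ⟨⟨pr σ A, hz⟩, hP, h3, fun x hx => ?_⟩
    refine main σ h.fin hQ' hne h3 h3' _ (fun y hy => ?_) x hx
    have h1 := h.rig ⟨Q', hz'⟩ ⟨pr σ A, hz⟩ hQ' hP (fun hc => hne (Subtype.ext_iff.1 hc).symm)
      h3' h3 y
    rw [hord] at h1
    exact h1 hy
  obtain ⟨Q, Q', hQ, hQ', hne, h3, h3'⟩ := h.split
  have h33 := mul_eq_two h.fin hQ hQ' hne h3 h3'
  have hle : Q * Q' ≤ pr σ A := by
    rw [h33, Ideal.span_singleton_le_iff_mem, mem_pr, map_ofNat]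
    exact hA
  rcases hP.mul_le.1 hle with h1 | h1
  · exact key Q Q' hQ hQ' hne h3 h3' h1
  · exact key Q' Q hQ' hQ hne.symm h3' h3 h1

end

end Pool.Agent.Lib.MP_7c08ba_nt.RZC2
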