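import Pool.Agent.Lib.MP_7c08ba_nt.RZ.C.All
import Pool.Agent.Lib.MP_7c08ba_nt.RZ.C2.Basis2
import Pool.Agent.Lib.MP_7c08ba_nt.RZ.C2.Chain2
import Pool.Agent.Lib.MP_7c08ba_nt.RZ.C2.Unit2
import Pool.Agent.Lib.MP_7c08ba_nt.RZ.C2.Sum2
import Pool.Agent.Lib.MP_7c08ba_nt.RZ.C2.Final2

set_option autoImplicit false

/-! Part (C2), complete. -/

namespace Pool.Agent.Lib.MP_7c08ba_nt.RZC2

open RZC

theorem pSum2 : StSum2 :=
  stSum2 stBasis2 stUnit2 stRep2 (stChain2 (stAdapt2 stBasis2)) pOrdC pOdd stLat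

/-- **Part (C2)**: the period is not zero. -/
theorem stmtC2_all : StmtC2 := stmtC2 stLat stE2Lat pTaylor stBasis2 stDD pValR pSum2

end Pool.Agent.Lib.MP_7c08ba_nt.RZC2
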