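import Pool.Agent.Lib.MP_7c08ba_nt.RZ.C2.Chain2
import Pool.Agent.Lib.MP_7c08ba_nt.RZ.C3.RigO
import Pool.Agent.Lib.MP_7c08ba_nt.RZ.EPl
import Pool.Agent.Lib.MP_7c08ba_nt.Gen.RigidTwo

set_option autoImplicit false

/-!
The hypotheses on the field of part (C2) follow from rigidity.
-/

namespace Pool.Agent.Lib.MP_7c08ba_nt.RZC2

open NumberField BKGen BKGen.RT RZC2.Two
open RZC3.RigOAux (exists_elt mult_pow mult_self mult_ne le_eq)
open RZ (exists_padic_p)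
open scoped nonZeroDivisors

noncomputable section

namespace Rig2Aux

/-! ### squares in `ℚ₂` -/

theorem sq_of_one {z : ℤ_[2]} (h : PadicInt.toZModPow 3 z = 1) : ∃ κ : ℤ_[2], κ ^ 2 = z := by
  have h1 : z - 1 ∈ RingHom.ker (PadicInt.toZModPow (p := 2) 3) := by
    rw [RingHom.mem_ker, map_sub, h, map_one, sub_self]
  rw [PadicInt.ker_toZModPow, Ideal.mem_span_singleton] at h1
  obtain ⟨t, ht⟩ := h1
  obtain ⟨κ, hκ⟩ := isSquare_one_add_eight t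
  refine ⟨κ, ?_⟩
  have h8 : z = 1 + 8 * t := by
    have : ((2 : ℕ) : ℤ_[2]) ^ 3 = 8 := by norm_num
    rw [this] at ht
    linear_combination ht
  rw [h8, pow_two, ← hκ]

theorem sq_of_sixteen {z : ℤ_[2]} (h : ‖((z : ℚ_[2])) ^ 2 - 1‖ ≤ 1 / 16) :
    PadicInt.toZModPow 3 z = 1 ∨ PadicInt.toZModPow 3 z = -1 := by
  have h1 : ‖z ^ 2 - 1‖ ≤ ((2 : ℕ) : ℝ) ^ (-(4 : ℕ) : ℤ) := by
    rw [PadicInt.norm_def]
    push_cast
    refine h.trans ?_
    norm_num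
  rw [PadicInt.norm_le_pow_iff_mem_span_pow] at h1
  have h2 : z ^ 2 - 1 ∈ RingHom.ker (PadicInt.toZModPow (p := 2) 4) := by
    rw [PadicInt.ker_toZModPow]
    exact h1
  rw [RingHom.mem_ker, map_sub, map_one, map_pow, sub_eq_zero] at h2
  have h3 : PadicInt.toZModPow 3 z = ZMod.castHom (pow_dvd_pow 2 (by norm_num : 3 ≤ 4))
      (ZMod (2 ^ 3)) (PadicInt.toZModPow 4 z) := by
    exact (PadicInt.cast_toZModPow 3 4 (by norm_num) z).symm
  rw [h3]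
  generalize PadicInt.toZModPow 4 z = y at h2
  revert h2 y
  decide

theorem unit_cases {z : ℤ_[2]} (hz : ‖z‖ = 1) : PadicInt.toZModPow 3 z = 1 ∨
    PadicInt.toZModPow 3 z = -1 ∨ PadicInt.toZModPow 3 z = 3 ∨ PadicInt.toZModPow 3 z = -3 := by
  have hu : IsUnit z := PadicInt.isUnit_iff.2 hz
  have h1 : IsUnit (PadicInt.toZModPow 3 z) := hu.map _
  generalize PadicInt.toZModPow 3 z = y at h1
  revert y
  decide

/-- `-1`, `2` and a unit which is not `± 1` modulo `8` generate the group of square classes -/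
theorem class_gen {X a : ℚ_[2]} (ha : a ≠ 0) {Z : ℤ_[2]} (hZ : (Z : ℚ_[2]) = X)
    (hX : ‖X‖ = 1) (h1 : PadicInt.toZModPow 3 Z ≠ 1) (h2 : PadicInt.toZModPow 3 Z ≠ -1) :
    ∃ (ε : ℤ) (α β : ℕ) (κ : ℚ_[2]), (ε = 1 ∨ ε = -1) ∧ α < 2 ∧
      κ ^ 2 = a * (ε * 2 ^ α * X ^ β) := by
  -- the unit part of `a`
  obtain ⟨v, y, hy, hay⟩ : ∃ (v : ℤ) (y : ℤ_[2]), ‖y‖ = 1 ∧ a = (2 : ℚ_[2]) ^ v * y := by
    have h3 := Padic.norm_eq_zpow_neg_valuation ha
    have h4 : ‖a / (2 : ℚ_[2]) ^ a.valuation‖ = 1 := by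
      rw [norm_div, norm_zpow]
      have h5 : ‖(2 : ℚ_[2])‖ = ((2 : ℕ) : ℝ)⁻¹ := by exact_mod_cast Padic.norm_p (p := 2)
      rw [h5, h3, inv_zpow', div_self]
      positivity
    refine ⟨a.valuation, ⟨a / (2 : ℚ_[2]) ^ a.valuation, h4.le⟩, h4, ?_⟩
    have h5 : (2 : ℚ_[2]) ^ a.valuation ≠ 0 := zpow_ne_zero _ two_ne_zero
    change a = (2 : ℚ_[2]) ^ a.valuation * (a / (2 : ℚ_[2]) ^ a.valuation)
    field_simp
  have hZ1 : ‖Z‖ = 1 := by
    rw [PadicInt.norm_def, hZ]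
    exact hX
  -- the unit
  obtain ⟨ε, β, κ, hε, hκ⟩ : ∃ (ε : ℤ) (β : ℕ) (κ : ℤ_[2]), (ε = 1 ∨ ε = -1) ∧
      κ ^ 2 = y * ((ε : ℤ_[2]) * Z ^ β) := by
    have h3 := unit_cases hy
    have h4 : PadicInt.toZModPow 3 Z = 3 ∨ PadicInt.toZModPow 3 Z = -3 := by
      rcases unit_cases hZ1 with h | h | h | h
      · exact absurd h h1
      · exact absurd h h2
      · exact Or.inl h
      · exact Or.inr h
    have h9 : ((3 : ZMod (2 ^ 3))) * 3 = 1 := by decide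
    have key : ∀ (ε : ℤ) (β : ℕ), (ε = 1 ∨ ε = -1) →
        PadicInt.toZModPow 3 (y * ((ε : ℤ_[2]) * Z ^ β)) = 1 →
        ∃ (ε : ℤ) (β : ℕ) (κ : ℤ_[2]), (ε = 1 ∨ ε = -1) ∧
          κ ^ 2 = y * ((ε : ℤ_[2]) * Z ^ β) := by
      intro ε β hε h
      obtain ⟨κ, hκ⟩ := sq_of_one h
      exact ⟨ε, β, κ, hε, hκ⟩
    rcases h3 with h | h | h | h
    · exact key 1 0 (Or.inl rfl) (by simp [h])
    · exact key (-1) 0 (Or.inr rfl) (by simp [h])
    · rcases h4 with h' | h'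
      · exact key 1 1 (Or.inl rfl) (by simp [h, h', h9])
      · exact key (-1) 1 (Or.inr rfl) (by simp [h, h', h9])
    · rcases h4 with h' | h'
      · exact key (-1) 1 (Or.inr rfl) (by simp [h, h', h9])
      · exact key 1 1 (Or.inl rfl) (by simp [h, h', h9])
  have hκ' : (κ : ℚ_[2]) ^ 2 = y * (ε * X ^ β) := by
    have := congrArg (fun t : ℤ_[2] => (t : ℚ_[2])) hκ
    push_cast at this
    rw [hZ] at this
    exact this
  rcases Int.even_or_odd' v with ⟨t, rfl | rfl⟩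
  · refine ⟨ε, 0, β, (2 : ℚ_[2]) ^ t * κ, hε, by norm_num, ?_⟩
    rw [mul_pow, hκ', hay, ← zpow_natCast, ← zpow_mul, pow_zero, mul_one]
    push_cast
    rw [mul_comm t 2]
    ring
  · refine ⟨ε, 1, β, (2 : ℚ_[2]) ^ (t + 1) * κ, hε, by norm_num, ?_⟩
    rw [mul_pow, hκ', hay, ← zpow_natCast, ← zpow_mul, pow_one]
    have h5 : (2 : ℚ_[2]) ^ ((t + 1) * ((2 : ℕ) : ℤ)) = (2 : ℚ_[2]) ^ (2 * t + 1) * 2 := by
      rw [← zpow_add_one₀ two_ne_zero]
      congr 1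
      push_cast
      ring
    rw [h5]
    ring

/-! ### the primes above 2 -/

section field

variable {F : Type} [Field F] [NumberField F] {D : ℕ} {s : F}

theorem norm_two_ne {l : ℕ} [Fact l.Prime] (hl : l ≠ 2) (i : F →+* PadicAlgCl l) :
    ‖i ((2 : 𝓞 F) : F)‖ = 1 := by
  have e : i ((2 : 𝓞 F) : F) = ((2 : ℕ) : PadicAlgCl l) := by
    have h2 : ((2 : 𝓞 F) : F) = 2 := rfl
    rw [h2, map_ofNat]
    norm_num
  rw [e, norm_nat_ne Nat.prime_two hl]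

theorem two_pr {l : ℕ} [Fact l.Prime] (hl : l ≠ 2) (j : F →+* PadicAlgCl l) :
    (2 : 𝓞 F) ∉ pr j := by
  rw [mem_pr, norm_two_ne hl]
  exact lt_irrefl 1

/-- `C ^ 2 * P ^ k` principal: the generator is a square up to units away from 2 -/
theorem powAway_of {C P : Ideal (𝓞 F)} (hC : C ≠ ⊥)
    (h2 : Ideal.absNorm P = 2) {k : ℕ} {a : 𝓞 F} (ha : C ^ 2 * P ^ k = Ideal.span {a})
    (ha0 : a ≠ 0) : PowAway 2 (a : F) := by
  intro l hl hlp j
  have hq : (pr j).IsPrime := pr_prime j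
  have h0 : pr j ≠ ⊥ := pr_ne_bot j
  have hP0 : P ≠ ⊥ := ne_bot h2
  have hPq : ¬ P ≤ pr j := fun hle => two_pr hlp j (hle (two_mem h2))
  obtain ⟨b, hb0, hb⟩ := exists_elt hC hq h0
  obtain ⟨r, hr0, hr1, hr⟩ := exists_unif (pr j) h0 j rfl
  refine ⟨(b : F), ?_⟩
  have e1 : multiplicity (pr j) (Ideal.span {a}) = 2 * multiplicity (pr j) (Ideal.span {b}) := by
    rw [← ha, BKDH.LamW.mult_mul h0 (pow_ne_zero 2 hC) (pow_ne_zero k hP0)]
    rw [mult_pow hq h0 hC, mult_pow hq h0 hP0, BKDH.LamW.mult_zero hPq, mul_zero, add_zero, hb]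
  have e2 := hr a ha0
  have e3 := hr b hb0
  rw [e1, mul_comm, pow_mul, ← e3, ← pow_mul, mul_comm, pow_mul] at e2
  exact (pow_left_inj₀ (norm_nonneg _) (by positivity) (classNumber_ne_zero F)).1 e2

/-- multiplication by a unit away from 2 -/
theorem powAway_mul {a u : F} (ha : PowAway 2 a)
    (hu : ∀ (l : ℕ) [Fact l.Prime], l ≠ 2 → ∀ j : F →+* PadicAlgCl l, ‖j u‖ = 1) :
    PowAway 2 (a * u) := by
  intro l hl hlp j
  obtain ⟨b, hb⟩ := ha l hlp j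
  exact ⟨b, by rw [map_mul, norm_mul, hu l hlp j, mul_one, hb]⟩

/-- a divisor of a power of 2 is a unit away from 2 -/
theorem unit_away {x y : 𝓞 F} {m : ℕ} (h : (2 : 𝓞 F) ^ m = x * y) (l : ℕ) [Fact l.Prime]
    (hl : l ≠ 2) (i : F →+* PadicAlgCl l) : ‖i (x : F)‖ = 1 := by
  have h3 := congrArg (fun z : 𝓞 F => ‖i (z : F)‖) h
  simp only [map_pow, map_mul, norm_pow, norm_mul, norm_two_ne hl, one_pow] at h3
  have h4 := norm_emb_le i x
  have h5 := norm_emb_le i y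
  have h6 := norm_nonneg (i (x : F))
  have h7 := norm_nonneg (i (y : F))
  nlinarith

theorem dvd_two_pow {P : Ideal (𝓞 F)} (h2 : Ideal.absNorm P = 2) {m : ℕ} {x : 𝓞 F}
    (hx : P ^ m = Ideal.span {x}) : ∃ y, (2 : 𝓞 F) ^ m = x * y := by
  have h1 : (2 : 𝓞 F) ^ m ∈ Ideal.span {x} := by
    rw [← hx]
    exact Ideal.pow_mem_pow (two_mem h2) m
  obtain ⟨y, hy⟩ := Ideal.mem_span_singleton.1 h1
  exact ⟨y, hy⟩

theorem sqrt_exists (hD8 : D % 8 = 7) : ∃ u : ℚ_[2], u ^ 2 = -(D : ℚ_[2]) := by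
  obtain ⟨k, hk⟩ : ∃ k : ℕ, D + 1 = 8 * k := ⟨(D + 1) / 8, by omega⟩
  obtain ⟨z, hz⟩ := isSquare_one_add_eight (-(k : ℤ_[2]))
  refine ⟨(z : ℚ_[2]), ?_⟩
  have h1 : ((1 + 8 * (-(k : ℤ_[2])) : ℤ_[2]) : ℚ_[2]) = ((z * z : ℤ_[2]) : ℚ_[2]) := by rw [hz]
  have h8' : ((8 : ℤ_[2]) : ℚ_[2]) = 8 := rfl
  push_cast at h1
  rw [h8'] at h1
  have h2 : (D : ℚ_[2]) + 1 = 8 * k := by exact_mod_cast hk
  linear_combination -h1 + h2

/-- the embedding in `ℚ₂` attached to a prime of norm 2 -/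
theorem exists_j (hD8 : D % 8 = 7) (hfin : Module.finrank ℚ F = 2) (hs : s ^ 2 = -(D : F))
    {P : Ideal (𝓞 F)} (hP : P.IsPrime) (h2 : Ideal.absNorm P = 2) :
    ∃ (ι : F →+* PadicAlgCl 2) (j : F →+* ℚ_[2]),
      (∀ x, algebraMap ℚ_[2] (PadicAlgCl 2) (j x) = ι x) ∧
      (∀ x : 𝓞 F, x ∈ P ↔ ‖j (x : F)‖ < 1) ∧ ∀ x : 𝓞 F, ‖j (x : F)‖ ≤ 1 := by
  have h2' : ((2 : ℕ) : 𝓞 F) ∈ P := by exact_mod_cast two_mem h2
  obtain ⟨ι, hι⟩ := exists_emb P (ne_bot h2) (l := 2) h2'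
  obtain ⟨j, hj⟩ := exists_padic_p (p := 2) (by omega) (sqrt_exists hD8) hfin hs ι
  have hn : ∀ x, ‖j x‖ = ‖ι x‖ := by
    intro x
    rw [← hj]
    exact (PadicAlgCl.norm_extends 2 (j x)).symm
  refine ⟨ι, j, hj, fun x => ?_, fun x => ?_⟩
  · rw [hι, mem_pr, hn]
  · rw [hn]
    exact norm_emb_le ι x

/-- a local square -/
theorem powAt_of {ι : F →+* PadicAlgCl 2} {j : F →+* ℚ_[2]}
    (hj : ∀ x, algebraMap ℚ_[2] (PadicAlgCl 2) (j x) = ι x) {a : F} {κ : ℚ_[2]}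
    (h : κ ^ 2 = j a) : PowAt 2 ι a := by
  refine ⟨algebraMap ℚ_[2] (PadicAlgCl 2) κ, (comp 2 ι).algebraMap_mem κ, ?_⟩
  rw [← map_pow, h, hj]

theorem sq_inj {I J : Ideal (𝓞 F)} (h : I ^ 2 = J ^ 2) : I = J := by
  have h1 : I ∣ J := (UniqueFactorizationMonoid.pow_dvd_pow_iff_dvd two_ne_zero).1 (dvd_of_eq h)
  have h2 : J ∣ I := (UniqueFactorizationMonoid.pow_dvd_pow_iff_dvd two_ne_zero).1 (dvd_of_eq h.symm)
  rw [Ideal.dvd_iff_le] at h1 h2
  exact le_antisymm h2 h1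

/-- the generator of `P ^ m` is not a local square, up to a sign, at `P'` -/
theorem core (hR : ∀ ι : F →+* PadicAlgCl 2, Rigid 2 F ι) {P : (Ideal (𝓞 F))⁰}
    (hP : (P : Ideal (𝓞 F)).IsPrime)
    (hn : Ideal.absNorm (P : Ideal (𝓞 F)) = 2) {x : 𝓞 F}
    (hx : (P : Ideal (𝓞 F)) ^ orderOf (ClassGroup.mk0 P) = Ideal.span {x})
    {ι : F →+* PadicAlgCl 2} {j : F →+* ℚ_[2]}
    (hj : ∀ x, algebraMap ℚ_[2] (PadicAlgCl 2) (j x) = ι x) {ε : ℤ} (hε : ε = 1 ∨ ε = -1)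
    {κ : ℚ_[2]} (h : κ ^ 2 = ε * j (x : F)) : False := by
  have hP0 : (P : Ideal (𝓞 F)) ≠ ⊥ := ne_bot hn
  set m := orderOf (ClassGroup.mk0 P) with hm
  have hm0 : 0 < m := orderOf_pos _
  have hx0 : x ≠ 0 := by
    rintro rfl
    rw [Ideal.span_singleton_eq_bot.2 rfl] at hx
    exact pow_ne_zero m hP0 hx
  have hε0 : (ε : 𝓞 F) ≠ 0 := by
    rcases hε with rfl | rfl <;> simp
  have hεu : IsUnit (ε : 𝓞 F) := by
    rcases hε with rfl | rfl
    · simp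
    · simp
  obtain ⟨y, hy⟩ := dvd_two_pow hn hx
  have hy' : (2 : 𝓞 F) ^ m = (ε * x) * (ε * y) := by
    rw [hy]
    rcases hε with rfl | rfl
    · push_cast
      ring
    · push_cast
      ring
  have hpa : PowAway 2 ((ε * x : 𝓞 F) : F) := by
    intro l hl hl2 i
    refine ⟨1, ?_⟩
    rw [unit_away hy' l hl2 i, map_one, norm_one, one_pow]
  have hne : ((ε * x : 𝓞 F) : F) ≠ 0 := by
    exact_mod_cast mul_ne_zero hε0 hx0
  have hjx : j ((ε * x : 𝓞 F) : F) = ε * j (x : F) := by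
    have e : ((ε * x : 𝓞 F) : F) = (ε : F) * (x : F) := by
      change algebraMap (𝓞 F) F (ε * x) = _
      rw [map_mul, map_intCast]
    rw [e, map_mul, map_intCast]
  obtain ⟨b, hb⟩ := hR ι _ hne hpa (powAt_of hj (κ := κ) (by rw [h, hjx]))
  have hbi : IsIntegral ℤ b := by
    apply IsIntegral.of_pow (n := 2) (by norm_num)
    rw [hb]
    exact (ε * x : 𝓞 F).2
  obtain ⟨b', rfl⟩ : ∃ b' : 𝓞 F, (b' : F) = b := ⟨⟨b, hbi⟩, rfl⟩
  have hb2 : b' ^ 2 = ε * x := by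
    apply RingOfIntegers.ext
    simpa using hb
  have hprime : Prime (P : Ideal (𝓞 F)) := Ideal.prime_of_isPrime hP0 hP
  have h1 : Ideal.span {b'} ^ 2 = (P : Ideal (𝓞 F)) ^ m := by
    rw [hx, Ideal.span_singleton_pow, hb2, Ideal.span_singleton_mul_left_unit hεu]
  have h2 : Ideal.span {b'} ∣ (P : Ideal (𝓞 F)) ^ m := by
    rw [← h1]
    exact dvd_pow_self _ (by norm_num)
  rw [dvd_prime_pow hprime] at h2
  obtain ⟨k, -, hk⟩ := h2
  have hk' : Ideal.span {b'} = (P : Ideal (𝓞 F)) ^ k := associated_iff_eq.1 hk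
  rw [hk', ← pow_mul] at h1
  have h3 : k * 2 = m := by
    have h5 := congrArg (multiplicity (P : Ideal (𝓞 F))) h1
    rw [mult_pow hP hP0 hP0, mult_pow hP hP0 hP0, mult_self] at h5
    omega
  have h4 : (ClassGroup.mk0 P) ^ k = 1 := by
    rw [← map_pow, ClassGroup.mk0_eq_one_iff]
    exact ⟨b', by rw [SubmonoidClass.coe_pow, ← hk']⟩
  have h5 : m ∣ k := orderOf_dvd_of_pow_eq_one h4
  have hk0 : 0 < k := by omega
  have := Nat.le_of_dvd hk0 h5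
  omega

/-- the generator of `P ^ m` is not `± 1` modulo `8` at `P'` -/
theorem core' (hR : ∀ ι : F →+* PadicAlgCl 2, Rigid 2 F ι) {P : (Ideal (𝓞 F))⁰}
    (hP : (P : Ideal (𝓞 F)).IsPrime)
    (hn : Ideal.absNorm (P : Ideal (𝓞 F)) = 2) {x : 𝓞 F}
    (hx : (P : Ideal (𝓞 F)) ^ orderOf (ClassGroup.mk0 P) = Ideal.span {x})
    {ι : F →+* PadicAlgCl 2} {j : F →+* ℚ_[2]}
    (hj : ∀ x, algebraMap ℚ_[2] (PadicAlgCl 2) (j x) = ι x) {Z : ℤ_[2]}
    (hZ : (Z : ℚ_[2]) = j (x : F)) :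
    PadicInt.toZModPow 3 Z ≠ 1 ∧ PadicInt.toZModPow 3 Z ≠ -1 := by
  constructor
  · intro h
    obtain ⟨κ, hκ⟩ := sq_of_one h
    refine core hR hP hn hx hj (Or.inl rfl) (κ := κ) ?_
    rw [← hZ, ← hκ]
    push_cast
    ring
  · intro h
    obtain ⟨κ, hκ⟩ := sq_of_one (z := -Z) (by rw [map_neg, h, neg_neg])
    refine core hR hP hn hx hj (Or.inr rfl) (κ := κ) ?_
    rw [← hZ]
    have := congrArg (fun t : ℤ_[2] => (t : ℚ_[2])) hκ
    push_cast at this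
    rw [this]
    push_cast
    ring

/-- the other prime above 2 -/
theorem other_of (hfin : Module.finrank ℚ F = 2)
    (hsp : ∃ P P' : Ideal (𝓞 F), P.IsPrime ∧ P'.IsPrime ∧ P ≠ P' ∧ Ideal.absNorm P = 2 ∧
      Ideal.absNorm P' = 2) {P : Ideal (𝓞 F)} (hP : P.IsPrime)
    (hN : Ideal.absNorm P = 2) : ∃ P' : Ideal (𝓞 F), P'.IsPrime ∧ P ≠ P' ∧
      Ideal.absNorm P' = 2 ∧ P * P' = Ideal.span {(2 : 𝓞 F)} := by
  obtain ⟨Q, Q', hQ, hQ', hne, h2, h2'⟩ := hsp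
  have h22 := mul_eq_two hfin hQ hQ' hne h2 h2'
  have hle : Q * Q' ≤ P := by
    rw [h22, Ideal.span_singleton_le_iff_mem]
    exact two_mem hN
  rcases hP.mul_le.1 hle with h1 | h1
  · have he : Q = P := (isMax hQ h2).eq_of_le hP.ne_top h1
    subst he
    exact ⟨Q', hQ', hne, h2', h22⟩
  · have he : Q' = P := (isMax hQ' h2').eq_of_le hP.ne_top h1
    subst he
    exact ⟨Q, hQ, hne.symm, h2, by rw [mul_comm, h22]⟩

theorem not_mem_other {P P' : Ideal (𝓞 F)} (hP : P.IsPrime) (hP' : P'.IsPrime) (hne : P ≠ P')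
    (hn : Ideal.absNorm P = 2) {m : ℕ} {x : 𝓞 F} (hx : P ^ m = Ideal.span {x}) : x ∉ P' := by
  intro hxP
  have h2 : P ^ m ≤ P' := by
    rw [hx, Ideal.span_singleton_le_iff_mem]
    exact hxP
  exact hne (le_eq hP (ne_bot hn) hP' (hP'.le_of_pow_le h2))

theorem exists_Z {P' : Ideal (𝓞 F)} {j : F →+* ℚ_[2]}
    (hmem : ∀ x : 𝓞 F, x ∈ P' ↔ ‖j (x : F)‖ < 1) (hle : ∀ x : 𝓞 F, ‖j (x : F)‖ ≤ 1) {x : 𝓞 F}
    (hx : x ∉ P') : ‖j (x : F)‖ = 1 ∧ ∃ Z : ℤ_[2], (Z : ℚ_[2]) = j (x : F) := by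
  rw [hmem, not_lt] at hx
  exact ⟨le_antisymm (hle x) hx, ⟨⟨_, hle x⟩, rfl⟩⟩

theorem cls_of (hD8 : D % 8 = 7) (hfin : Module.finrank ℚ F = 2) (hs : s ^ 2 = -(D : F))
    (hR : ∀ ι : F →+* PadicAlgCl 2, Rigid 2 F ι)
    (hsp : ∃ P P' : Ideal (𝓞 F), P.IsPrime ∧ P'.IsPrime ∧ P ≠ P' ∧ Ideal.absNorm P = 2 ∧
      Ideal.absNorm P' = 2)
    (P : (Ideal (𝓞 F))⁰) (hn : Ideal.absNorm (P : Ideal (𝓞 F)) = 2) :
    Odd (Subgroup.zpowers (ClassGroup.mk0 P)).index := by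
  classical
  by_contra hodd
  have hdvd : 2 ∣ (Subgroup.zpowers (ClassGroup.mk0 P)).index := by
    rw [Nat.not_odd_iff_even] at hodd
    exact hodd.two_dvd
  have hP := isPrime_of hn
  have hP0 := ne_bot hn
  set H := Subgroup.zpowers (ClassGroup.mk0 P) with hH
  obtain ⟨P', hP', hne, hn', h22⟩ := other_of hfin hsp hP hn
  have hP0' := ne_bot hn'
  have : Fact (Nat.Prime 2) := ⟨Nat.prime_two⟩
  rw [Subgroup.index] at hdvd
  obtain ⟨c, hc⟩ := exists_prime_orderOf_dvd_card' (G := ClassGroup (𝓞 F) ⧸ H) 2 hdvd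
  obtain ⟨c, rfl⟩ := QuotientGroup.mk_surjective c
  obtain ⟨C, rfl⟩ := ClassGroup.mk0_surjective c
  have hcH : ClassGroup.mk0 C ∉ H := by
    intro hc1
    have h1 : ((ClassGroup.mk0 C : ClassGroup (𝓞 F)) : ClassGroup (𝓞 F) ⧸ H) = 1 :=
      (QuotientGroup.eq_one_iff _).2 hc1
    rw [h1, orderOf_one] at hc
    exact absurd hc (by norm_num)
  have hc2 : (ClassGroup.mk0 C) ^ 2 ∈ H := by
    rw [← QuotientGroup.eq_one_iff, QuotientGroup.mk_pow, ← hc]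
    exact pow_orderOf_eq_one _
  apply hcH
  have h1 : ((ClassGroup.mk0 C) ^ 2)⁻¹ ∈ Submonoid.powers (ClassGroup.mk0 P) := by
    rw [mem_powers_iff_mem_zpowers]
    exact H.inv_mem hc2
  obtain ⟨k, hk⟩ := h1
  have hk' : ClassGroup.mk0 P ^ k = ((ClassGroup.mk0 C) ^ 2)⁻¹ := hk
  have h2 : ClassGroup.mk0 (C ^ 2 * P ^ k) = 1 := by
    rw [map_mul, map_pow, map_pow, hk', mul_inv_cancel]
  rw [ClassGroup.mk0_eq_one_iff] at h2
  obtain ⟨a, ha⟩ := h2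
  have ha : (C : Ideal (𝓞 F)) ^ 2 * (P : Ideal (𝓞 F)) ^ k = Ideal.span {a} := by
    simpa using ha
  have hC0 : (C : Ideal (𝓞 F)) ≠ ⊥ := nonZeroDivisors.ne_zero C.2
  have ha0 : a ≠ 0 := by
    rintro rfl
    rw [Ideal.span_singleton_eq_bot.2 rfl] at ha
    exact mul_ne_zero (pow_ne_zero 2 hC0) (pow_ne_zero k hP0) ha
  have haF : (a : F) ≠ 0 := by exact_mod_cast ha0
  -- the generator of `P ^ m`
  set m := orderOf (ClassGroup.mk0 P) with hm
  obtain ⟨x, hx⟩ : ∃ x : 𝓞 F, (P : Ideal (𝓞 F)) ^ m = Ideal.span {x} := by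
    have h : ClassGroup.mk0 (P ^ m) = 1 := by
      rw [map_pow, hm, pow_orderOf_eq_one]
    obtain ⟨x, hx⟩ := (ClassGroup.mk0_eq_one_iff _).mp h
    exact ⟨x, by simpa using hx⟩
  have hx0 : x ≠ 0 := by
    rintro rfl
    rw [Ideal.span_singleton_eq_bot.2 rfl] at hx
    exact pow_ne_zero m hP0 hx
  obtain ⟨ι, j, hj, hmem, hle⟩ := exists_j hD8 hfin hs hP' hn'
  obtain ⟨hx1, Z, hZ⟩ := exists_Z hmem hle (not_mem_other hP hP' hne hn hx)
  obtain ⟨hZ1, hZ2⟩ := core' hR hP hn hx hj hZ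
  obtain ⟨ε, α, β, κ, hε, hα, hκ⟩ := class_gen (a := j (a : F)) (by rwa [Ne, map_eq_zero]) hZ hx1
    hZ1 hZ2
  -- the product
  set u : 𝓞 F := ε * 2 ^ α * x ^ β with hu
  have hεu : IsUnit (ε : 𝓞 F) := by
    rcases hε with rfl | rfl
    · simp
    · simp
  have hu0 : u ≠ 0 := mul_ne_zero (mul_ne_zero hεu.ne_zero (pow_ne_zero _ two_ne_zero))
    (pow_ne_zero _ hx0)
  obtain ⟨y, hy⟩ := dvd_two_pow hn hx
  have hpa : PowAway 2 ((a : F) * (u : F)) := by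
    refine powAway_mul (powAway_of hC0 hn ha ha0) fun l hl hl2 i => ?_
    have e : (u : F) = ε * ((2 : 𝓞 F) : F) ^ α * (x : F) ^ β := by
      rw [hu]
      change algebraMap (𝓞 F) F (ε * 2 ^ α * x ^ β) = _
      rw [map_mul, map_mul, map_intCast, map_pow, map_pow]
    rw [e, map_mul, map_mul, map_pow, map_pow, norm_mul, norm_mul, norm_pow, norm_pow,
      norm_two_ne hl2, unit_away hy l hl2 i, one_pow, one_pow, mul_one, mul_one, map_intCast]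
    rcases hε with rfl | rfl
    · simp
    · simp
  have hne0 : (a : F) * (u : F) ≠ 0 := mul_ne_zero haF (by exact_mod_cast hu0)
  have hju : κ ^ 2 = j ((a : F) * (u : F)) := by
    have e : (u : F) = ε * 2 ^ α * (x : F) ^ β := by
      rw [hu]
      change algebraMap (𝓞 F) F (ε * 2 ^ α * x ^ β) = _
      rw [map_mul, map_mul, map_intCast, map_pow, map_pow, map_ofNat]
    rw [hκ, e, map_mul, map_mul, map_mul, map_intCast, map_pow, map_pow, map_ofNat]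
  obtain ⟨b, hb⟩ := hR ι _ hne0 hpa (powAt_of hj hju)
  have hbi : IsIntegral ℤ b := by
    apply IsIntegral.of_pow (n := 2) (by norm_num)
    rw [hb]
    exact (a * u : 𝓞 F).2
  obtain ⟨b', rfl⟩ : ∃ b' : 𝓞 F, (b' : F) = b := ⟨⟨b, hbi⟩, rfl⟩
  have hb2 : b' ^ 2 = a * u := by
    apply RingOfIntegers.ext
    simpa using hb
  have hb0 : b' ≠ 0 := by
    rintro rfl
    rw [zero_pow two_ne_zero] at hb2
    exact mul_ne_zero ha0 hu0 hb2.symm
  have hspu : Ideal.span {u} = (P : Ideal (𝓞 F)) ^ (α + m * β) * P' ^ α := by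
    rw [hu, mul_assoc, Ideal.span_singleton_mul_left_unit hεu,
      ← Ideal.span_singleton_mul_span_singleton, ← Ideal.span_singleton_pow,
      ← Ideal.span_singleton_pow, ← h22, ← hx, mul_pow, ← pow_mul, pow_add]
    ring
  have hI : Ideal.span {b'} ^ 2 = (C : Ideal (𝓞 F)) ^ 2 *
      (P : Ideal (𝓞 F)) ^ (k + (α + m * β)) * P' ^ α := by
    rw [Ideal.span_singleton_pow, hb2, ← Ideal.span_singleton_mul_span_singleton, ← ha, hspu,
      pow_add]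
    ring
  have hB0 : Ideal.span {b'} ≠ ⊥ := by rwa [Ne, Ideal.span_singleton_eq_bot]
  have hmP : ∀ q : Ideal (𝓞 F), q.IsPrime → q ≠ ⊥ →
      2 * multiplicity q (Ideal.span {b'}) = 2 * multiplicity q (C : Ideal (𝓞 F)) +
        (k + (α + m * β)) * multiplicity q (P : Ideal (𝓞 F)) + α * multiplicity q P' := by
    intro q hq hq0
    have h5 := congrArg (multiplicity q) hI
    rw [mult_pow hq hq0 hB0,
      BKDH.LamW.mult_mul hq0 (mul_ne_zero (pow_ne_zero _ hC0) (pow_ne_zero _ hP0))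
        (pow_ne_zero _ hP0'),
      BKDH.LamW.mult_mul hq0 (pow_ne_zero _ hC0) (pow_ne_zero _ hP0),
      mult_pow hq hq0 hC0, mult_pow hq hq0 hP0, mult_pow hq hq0 hP0'] at h5
    exact h5
  have hα0 : α = 0 := by
    have h5 := hmP P' hP' hP0'
    rw [mult_ne hP' hP hP0 hne.symm, mult_self] at h5
    omega
  have hK := hmP P hP hP0
  rw [mult_ne hP hP' hP0' hne, mult_self] at hK
  obtain ⟨K, hK2⟩ : ∃ K, k + (α + m * β) = 2 * K := ⟨(k + (α + m * β)) / 2, by omega⟩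
  rw [hK2, hα0, pow_zero, mul_one, mul_comm 2 K, pow_mul, ← mul_pow] at hI
  have hI' := sq_inj hI
  have h6 : ClassGroup.mk0 (C * P ^ K) = 1 := by
    rw [ClassGroup.mk0_eq_one_iff]
    exact ⟨b', by
      rw [Submonoid.coe_mul, SubmonoidClass.coe_pow, ← hI']⟩
  rw [map_mul, map_pow] at h6
  rw [eq_inv_of_mul_eq_one_left h6]
  exact H.inv_mem (H.pow_mem (Subgroup.mem_zpowers _) _)

theorem pow_norm {P' : Ideal (𝓞 F)} {j : F →+* ℚ_[2]}
    (hmem : ∀ x : 𝓞 F, x ∈ P' ↔ ‖j (x : F)‖ < 1) (hle : ∀ x : 𝓞 F, ‖j (x : F)‖ ≤ 1) (n : ℕ) :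
    ∀ y ∈ P' ^ n, ‖j (y : F)‖ ≤ (1 / 2) ^ n := by
  induction n with
  | zero =>
    intro y _
    simpa using hle y
  | succ n ih =>
    intro y hy
    rw [pow_succ] at hy
    refine Submodule.mul_induction_on hy ?_ ?_
    · intro a ha b hb
      simp only [map_mul, norm_mul]
      have h1 := ih a ha
      have h2 : ‖j (b : F)‖ ≤ 1 / 2 := by
        have h3 := (hmem b).1 hb
        have h4 := (Padic.norm_lt_pow_iff_norm_le_pow_sub_one (p := 2) (j (b : F)) 0).1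
          (by simpa using h3)
        norm_num at h4 ⊢
        exact h4
      rw [pow_succ]
      exact mul_le_mul h1 h2 (norm_nonneg _) (by positivity)
    · intro a b ha hb
      simp only [map_add]
      exact (IsUltrametricDist.norm_add_le_max _ _).trans (max_le ha hb)

theorem rig_of (hD8 : D % 8 = 7) (hfin : Module.finrank ℚ F = 2) (hs : s ^ 2 = -(D : F))
    (hR : ∀ ι : F →+* PadicAlgCl 2, Rigid 2 F ι)
    (P P' : (Ideal (𝓞 F))⁰) (hP : (P : Ideal (𝓞 F)).IsPrime) (hP' : (P' : Ideal (𝓞 F)).IsPrime)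
    (hne : P ≠ P') (hn : Ideal.absNorm (P : Ideal (𝓞 F)) = 2)
    (hn' : Ideal.absNorm (P' : Ideal (𝓞 F)) = 2) (x : 𝓞 F)
    (hx : (P : Ideal (𝓞 F)) ^ orderOf (ClassGroup.mk0 P) = Ideal.span {x}) :
    x ^ 2 - 1 ∉ (P' : Ideal (𝓞 F)) ^ 4 := by
  intro hmem4
  have hne' : (P : Ideal (𝓞 F)) ≠ P' := fun h => hne (Subtype.ext h)
  obtain ⟨ι, j, hj, hmem, hle⟩ := exists_j hD8 hfin hs hP' hn'
  obtain ⟨hx1, Z, hZ⟩ := exists_Z hmem hle (not_mem_other hP hP' hne' hn hx)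
  obtain ⟨hZ1, hZ2⟩ := core' hR hP hn hx hj hZ
  have h1 := pow_norm hmem hle 4 _ hmem4
  have e : ((x ^ 2 - 1 : 𝓞 F) : F) = (x : F) ^ 2 - 1 := by simp
  rw [e, map_sub, map_pow, map_one, ← hZ] at h1
  rcases sq_of_sixteen (z := Z) (h1.trans (by norm_num)) with h | h
  · exact hZ1 h
  · exact hZ2 h

/-- 2 splits -/
theorem split_of (hD8 : D % 8 = 7) (hfin : Module.finrank ℚ F = 2) (hs : s ^ 2 = -(D : F)) :
    ∃ P P' : Ideal (𝓞 F), P.IsPrime ∧ P'.IsPrime ∧ P ≠ P' ∧ Ideal.absNorm P = 2 ∧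
      Ideal.absNorm P' = 2 := by
  obtain ⟨n, hn⟩ : ∃ n : ℕ, D + 1 = 8 * n := ⟨(D + 1) / 8, by omega⟩
  have hnF : (D : F) + 1 = 8 * n := by exact_mod_cast hn
  have hint : IsIntegral ℤ ((1 + s) / 2 : F) := by
    refine ⟨Polynomial.X ^ 2 - Polynomial.X + Polynomial.C ((2 * n : ℕ) : ℤ), ?_, ?_⟩
    · monicity!
    · simp only [Polynomial.eval₂_add, Polynomial.eval₂_sub, Polynomial.eval₂_pow,
        Polynomial.eval₂_X, Polynomial.eval₂_C]
      rw [map_natCast]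
      push_cast
      linear_combination (1 / 4 : F) * hs - (1 / 4 : F) * hnF
  obtain ⟨ω, hω⟩ : ∃ ω : 𝓞 F, (ω : F) = (1 + s) / 2 := ⟨⟨_, hint⟩, rfl⟩
  have hωω : ω * (1 - ω) = 2 * n := by
    apply RingOfIntegers.ext
    have e : ((ω * (1 - ω) : 𝓞 F) : F) = (ω : F) * (1 - ω) := by simp
    have e' : ((2 * n : 𝓞 F) : F) = 2 * n := by
      change algebraMap (𝓞 F) F (2 * n) = _
      rw [map_mul, map_natCast, map_ofNat]
    rw [e, e', hω]
    linear_combination (-1 / 4 : F) * hs + (1 / 4 : F) * hnF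
  set P : Ideal (𝓞 F) := Ideal.span {(2 : 𝓞 F), ω} with hPd
  set P' : Ideal (𝓞 F) := Ideal.span {(2 : 𝓞 F), 1 - ω} with hPd'
  have h2P : (2 : 𝓞 F) ∈ P := Ideal.subset_span (by simp)
  have h2P' : (2 : 𝓞 F) ∈ P' := Ideal.subset_span (by simp)
  have hωP : ω ∈ P := Ideal.subset_span (by simp)
  have hωP' : 1 - ω ∈ P' := Ideal.subset_span (by simp)
  -- the product
  have hmul : P * P' = Ideal.span {(2 : 𝓞 F)} := by
    apply le_antisymm
    · rw [hPd, hPd', Ideal.span_mul_span', Ideal.span_le]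
      rintro z ⟨y, hy, y', hy', rfl⟩
      rw [SetLike.mem_coe, Ideal.mem_span_singleton]
      simp only [Set.mem_insert_iff, Set.mem_singleton_iff] at hy hy'
      rcases hy with rfl | rfl
      · exact ⟨y', rfl⟩
      · rcases hy' with rfl | rfl
        · exact ⟨y, mul_comm _ _⟩
        · exact ⟨n, hωω⟩
    · rw [Ideal.span_singleton_le_iff_mem]
      have h1 : (2 : 𝓞 F) = ω * 2 + 2 * (1 - ω) := by ring
      rw [h1]
      exact Ideal.add_mem _ (Ideal.mul_mem_mul hωP h2P') (Ideal.mul_mem_mul h2P hωP')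
  -- the embeddings
  have hD0 : 0 < D := by omega
  obtain ⟨c, hc⟩ := BKGen.RTwo.exists_conj hD0 hfin hs
  have hemb : Nonempty (F →+* PadicAlgCl 2) := by
    let : Algebra ℚ (PadicAlgCl 2) := DivisionRing.toRatAlgebra
    exact ⟨(IsAlgClosed.lift (R := ℚ) (S := F) (M := PadicAlgCl 2)).toRingHom⟩
  obtain ⟨ι⟩ := hemb
  have hcω : c (ω : F) = 1 - ω := by
    rw [hω, map_div₀, map_add, map_one, hc, map_ofNat]
    ring
  have hcase : ‖ι (ω : F)‖ < 1 ∨ ‖ι (c (ω : F))‖ < 1 := by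
    rw [hcω]
    by_contra hcon
    push Not at hcon
    have h1 := congrArg (fun z : 𝓞 F => ‖ι (z : F)‖) hωω
    have e : ((ω * (1 - ω) : 𝓞 F) : F) = (ω : F) * (1 - ω) := by simp
    have e' : ((2 * n : 𝓞 F) : F) = ((2 : ℕ) : F) * n := by
      change algebraMap (𝓞 F) F (2 * n) = _
      rw [map_mul, map_natCast, map_ofNat]
      norm_num
    simp only [e, e', map_mul, norm_mul, map_natCast] at h1
    have h3 : ‖((2 : ℕ) : PadicAlgCl 2)‖ < 1 := norm_nat_lt (l := 2)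
    have h4 : ‖((n : ℕ) : PadicAlgCl 2)‖ ≤ 1 := by
      have := norm_emb_le ι (n : 𝓞 F)
      have e3 : ι (((n : 𝓞 F)) : F) = n := by
        change ι (algebraMap (𝓞 F) F n) = _
        rw [map_natCast, map_natCast]
      rwa [e3] at this
    have h5 := norm_nonneg ((n : ℕ) : PadicAlgCl 2)
    have h6 := norm_nonneg ((2 : ℕ) : PadicAlgCl 2)
    nlinarith [hcon.1, hcon.2]
  obtain ⟨i, hi⟩ : ∃ i : F →+* PadicAlgCl 2, ‖i (ω : F)‖ < 1 := by
    rcases hcase with h | h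
    · exact ⟨ι, h⟩
    · exact ⟨ι.comp c, h⟩
  have h2i : ∀ i : F →+* PadicAlgCl 2, (2 : 𝓞 F) ∈ pr i := by
    intro i
    rw [mem_pr]
    have e : i ((2 : 𝓞 F) : F) = ((2 : ℕ) : PadicAlgCl 2) := by
      have h2 : ((2 : 𝓞 F) : F) = 2 := rfl
      rw [h2, map_ofNat]
      norm_num
    rw [e]
    exact norm_nat_lt (l := 2)
  have hPt : P ≠ ⊤ := by
    intro h
    have h1 : P ≤ pr i := by
      rw [hPd, Ideal.span_le]
      rintro z (rfl | rfl)
      · exact h2i i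
      · exact hi
    rw [h, top_le_iff] at h1
    exact (pr_prime i).ne_top h1
  have hPt' : P' ≠ ⊤ := by
    intro h
    have h1 : P' ≤ pr (i.comp c) := by
      rw [hPd', Ideal.span_le]
      rintro z (rfl | rfl)
      · exact h2i _
      · rw [SetLike.mem_coe, mem_pr]
        have e : ((1 - ω : 𝓞 F) : F) = 1 - (ω : F) := by simp
        rw [e, RingHom.comp_apply, map_sub, map_one, hcω, sub_sub_cancel]
        exact hi
    rw [h, top_le_iff] at h1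
    exact (pr_prime (i.comp c)).ne_top h1
  have h4 : Ideal.absNorm P * Ideal.absNorm P' = 4 := by
    rw [← map_mul, hmul, absNorm_two hfin]
  have hn1 : Ideal.absNorm P ≠ 1 := by rwa [Ne, Ideal.absNorm_eq_one_iff]
  have hn1' : Ideal.absNorm P' ≠ 1 := by rwa [Ne, Ideal.absNorm_eq_one_iff]
  have hnm : Ideal.absNorm P = 2 := by
    have h1 : Ideal.absNorm P ∣ 2 ^ 2 := ⟨_, h4.symm⟩
    rw [Nat.dvd_prime_pow Nat.prime_two] at h1
    obtain ⟨i, hi, hi'⟩ := h1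
    interval_cases i
    · exact absurd hi' hn1
    · exact hi'
    · rw [hi'] at h4
      exact absurd (by omega : Ideal.absNorm P' = 1) hn1'
  have hnm' : Ideal.absNorm P' = 2 := by
    rw [hnm] at h4
    omega
  refine ⟨P, P', isPrime_of hnm, isPrime_of hnm', ?_, hnm, hnm'⟩
  intro he
  apply hPt
  rw [Ideal.eq_top_iff_one]
  have h1 : (1 : 𝓞 F) = ω + (1 - ω) := by ring
  rw [h1]
  exact P.add_mem hωP (he ▸ hωP')

end field

end Rig2Aux

open Rig2Aux in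
/-- the hypotheses on the field of part (C2) from rigidity -/
theorem fieldC2_of_rigid {D : ℕ} {F : Type} [Field F] [NumberField F] {s : F}
    (hD8 : D % 8 = 7) (hfin : Module.finrank ℚ F = 2) (hs : s ^ 2 = -(D : F))
    (hR : ∀ ι : F →+* PadicAlgCl 2, Rigid 2 F ι) : FieldC2 D F s := by
  have hsp := split_of hD8 hfin hs
  exact ⟨by omega, hfin, hs, hsp, cls_of hD8 hfin hs hR hsp, rig_of hD8 hfin hs hR⟩

end

end Pool.Agent.Lib.MP_7c08ba_nt.RZC2
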