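import Mathlib
import Pool.Agent.Lib.MP_7c08ba_nt.RZ.NAll
import Pool.Agent.Lib.MP_7c08ba_nt.RZ.C2.All2
import Pool.Agent.Lib.MP_7c08ba_nt.RZ.C2.Rig2

set_option autoImplicit false

/-!
Both halves at `p = 2`, for all fields in which `2` splits and which are rigid at `2`.
-/

namespace Pool.Agent.Lib.MP_7c08ba_nt

namespace RZ

open NumberField Matrix IsDedekindDomain BKGen BKGen.Genus BKOdd MP_7c08ba.Crys
open scoped MatrixGroups nonZeroDivisors

/-- the fields for `p = 2` -/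
def Two (D : ℕ) : Prop := (D.Prime ∧ D % 16 = 7) ∨
    ∃ q r : ℕ, q.Prime ∧ r.Prime ∧ q % 8 = 3 ∧ r % 8 = 5 ∧ D = q * r

theorem Two.sqf {D : ℕ} (hD : Two D) : Squarefree D ∧ D % 8 = 7 := by
  rcases hD with ⟨hp, h16⟩ | ⟨q, r, hq, hr, h3, h5, rfl⟩
  · exact ⟨hp.prime.squarefree, by omega⟩
  · have hne : q ≠ r := by rintro rfl; omega
    refine ⟨?_, by rw [Nat.mul_mod, h3, h5]⟩
    rw [Nat.squarefree_mul ((Nat.coprime_primes hq hr).2 hne)]
    exact ⟨hq.prime.squarefree, hr.prime.squarefree⟩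

theorem Two.isFund {D : ℕ} (hD : Two D) : BKDH.IsFund D :=
  isFund_of_squarefree hD.sqf.1 (by have := hD.sqf.2; omega)

/-- the hypotheses of part (C2) -/
theorem Two.field {D : ℕ} (hD : Two D) {F : Type} [Field F] [NumberField F] {s : F}
    (hF : Module.finrank ℚ F = 2) (hs : s ^ 2 = -(D : F)) : RZC2.FieldC2 D F s := by
  refine RZC2.fieldC2_of_rigid hD.sqf.2 hF hs fun ι => ?_
  rcases hD with ⟨hq, h16⟩ | ⟨q, r, hq, hr, h3, h5, rfl⟩
  · exact rigidTwo hq h16 hF hs ι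
  · exact rigidTwo_qr hq hr h3 h5 hF hs ι

section

variable {F : Type} [Field F] [NumberField F] {w : ℕ}

/-- The central value is not zero if the character is trivial modulo a valuation above `2`. -/
theorem lval_two_gen (hM : StMainA) {D : ℕ} (hD : BKDH.IsFund D) (h4 : 4 < D) {s : F}
    (hC : RZC2.FieldC2 D F s) {f : CuspForm 𝒮ℒ (w : ℤ)} (hf : IsEigen f) {σ : F →+* ℂ} {r : ℕ}
    {ψ : Ideal (𝓞 F) →*₀ ℂ} (hψ : IsHecke σ (w + 2 * r) ψ) {V : ValuationSubring ℂ}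
    (hV : ResTriv V ψ) : ∃ Λ : ℂ → ℂ, IsLFunction f ψ r Λ ∧ Λ 0 ≠ 0 :=
  lval_of (hM D F _ _ s σ w r f ψ hD h4 hC.fin hC.sq hf hψ)
    (RZC2.stmtC2_all D F _ _ s σ V w r f ψ hC hf hψ hV)

/-- The half `k ≥ w`, `p = 2`. -/
theorem lhalf_two_gen (hM : StMainA) {D : ℕ} (hD : BKDH.IsFund D) (h4 : 4 < D) {s : F}
    (hC : RZC2.FieldC2 D F s) {f : CuspForm 𝒮ℒ (w : ℤ)} (hf : IsEigen f) {σ : F →+* ℂ} {r : ℕ}
    {ψ : Ideal (𝓞 F) →*₀ ℂ} (hψ : IsHecke σ (w + 2 * r) ψ) {E : Type} [NormedField E]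
    [NormedAlgebra ℚ_[2] E] {ι : ℂ →+* E} (hι : ResidueOneAt 2 ψ ι) :
    ∃ Λ : ℂ → ℂ, IsLFunction f ψ r Λ ∧ Λ 0 ≠ 0 := by
  obtain ⟨V, hV⟩ := resTriv_valRing hι
  exact lval_two_gen hM hD h4 hC hf hψ hV

end

/-- **`p = 2`**: the primes congruent to `7` modulo `16` and the products of a prime congruent to
`3` and a prime congruent to `5` modulo `8`. -/
theorem central_two_gen (hM : StMainNA) (hMA : StMainA) {D : ℕ} (hD : Two D) : Central 2 D := by
  have h4 : 4 < D := by have := hD.sqf.2; omega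
  exact central_of hM hD.isFund h4
    (fun F _ _ s hF hs => exists_sqrt_seven hD.sqf.2)
    (fun F _ _ s hF hs => BKF.parity_two hD hF hs)
    (fun F _ _ s hF hs w k f ψ hf E _ _ ι hι v hv =>
      frobTr_congr_two RZC.pOddZero hF hf hι v hv)
    (fun F _ _ s hF hs w r f σ ψ hf hψ E _ _ ι hι =>
      lhalf_two_gen hMA hD.isFund h4 (hD.field hF hs) hf hψ hι)

/-- **`p = 2`**: all rigid fields in which `2` splits. -/
theorem central_two_full {D : ℕ} (hD : Two D) : Central 2 D :=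
  central_two_gen aMainNA (stMainA aMainD aMainE) hD

end RZ

end Pool.Agent.Lib.MP_7c08ba_nt
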