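import Pool.Agent.Lib.MP_7c08ba_nt.RZ.Basic
import Pool.Agent.Lib.MP_7c08ba_nt.RZ.Defs

set_option autoImplicit false

/-!
Project RZ, part (C2): the CM period is not zero, `p = 2`, for all rigid fields in which `2`
splits.  Definitions and statements of the modules.  The statements on lattices, modular forms and
chains are those of `RZ/StmtsC.lean`.
-/

namespace Pool.Agent.Lib.MP_7c08ba_nt.RZC2

open UpperHalfPlane ModularForm EisensteinSeries MatrixGroups NumberField RZC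
open scoped Real Manifold ComplexConjugate nonZeroDivisors

noncomputable section

/-- the hypotheses on the field: imaginary quadratic, `2` splits, and for the primes `P ≠ P'`
above `2`: the index in the class group of the subgroup generated by the class of `P` is odd, and
the generators `x` of `P ^ m`, `m` the order of the class of `P`, are not `± 1` modulo `8` at
`P'` -/
structure FieldC2 (D : ℕ) (F : Type) [Field F] [NumberField F] (s : F) : Prop where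
  pos : 0 < D
  fin : Module.finrank ℚ F = 2
  sq : s ^ 2 = -(D : F)
  split : ∃ P P' : Ideal (𝓞 F), P.IsPrime ∧ P'.IsPrime ∧ P ≠ P' ∧ Ideal.absNorm P = 2 ∧
    Ideal.absNorm P' = 2
  cls : ∀ P : nonZeroDivisors (Ideal (𝓞 F)), Ideal.absNorm (P : Ideal (𝓞 F)) = 2 →
    Odd (Subgroup.zpowers (ClassGroup.mk0 P)).index
  rig : ∀ P P' : nonZeroDivisors (Ideal (𝓞 F)), (P : Ideal (𝓞 F)).IsPrime →
    (P' : Ideal (𝓞 F)).IsPrime → P ≠ P' → Ideal.absNorm (P : Ideal (𝓞 F)) = 2 →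
    Ideal.absNorm (P' : Ideal (𝓞 F)) = 2 → ∀ x : 𝓞 F,
      (P : Ideal (𝓞 F)) ^ orderOf (ClassGroup.mk0 P) = Ideal.span {x} →
      x ^ 2 - 1 ∉ (P' : Ideal (𝓞 F)) ^ 4

/-- oriented bases; index; covolume -/
def StBasis2 : Prop := ∀ (D : ℕ) (F : Type) [Field F] [NumberField F] (s : F),
  FieldC2 D F s → ∀ (σ : F →+* ℂ), ∃ κ : ℝ, 0 < κ ∧ ∀ (a : Ideal (𝓞 F)), a ≠ ⊥ →
  (∃ w₁ w₂ : ℂ, IsB σ a w₁ w₂) ∧
  ∀ w₁ w₂ : ℂ, IsB σ a w₁ w₂ →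
    ((w₁ * conj w₂).im = (Ideal.absNorm a : ℝ) * κ) ∧
    (∀ v₁ v₂ : ℂ, IsB σ ⊤ v₁ v₂ → lat w₁ w₂ ≤ lat v₁ v₂ ∧
      (lat w₁ w₂).toAddSubgroup.relIndex (lat v₁ v₂).toAddSubgroup = Ideal.absNorm a)

/-- adapted bases for a prime of norm 2 -/
def StAdapt2 : Prop := ∀ (D : ℕ) (F : Type) [Field F] [NumberField F] (s : F),
  FieldC2 D F s → ∀ (σ : F →+* ℂ) (P : Ideal (𝓞 F)), P.IsPrime → Ideal.absNorm P = 2 →
  ∀ b : Ideal (𝓞 F), b ≠ ⊥ → ∃ w₁ w₂ : ℂ, IsB σ (P ^ 2 * b) w₁ w₂ ∧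
      IsB σ (P * b) w₁ (w₂ / 2) ∧ IsB σ b w₁ (w₂ / 4)

/-- the prime above 2 attached to `A` and the unit `π-bar` -/
def StUnit2 : Prop := ∀ (D : ℕ) (F : Type) [Field F] [NumberField F] (s : F),
  FieldC2 D F s → ∀ (σ : F →+* ℂ) (A : ValuationSubring ℂ), Above2 A →
  ∃ P : nonZeroDivisors (Ideal (𝓞 F)), (P : Ideal (𝓞 F)).IsPrime ∧
    Ideal.absNorm (P : Ideal (𝓞 F)) = 2 ∧ ∀ x : 𝓞 F,
      (P : Ideal (𝓞 F)) ^ orderOf (ClassGroup.mk0 P) = Ideal.span {x} →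
      UnitC A (orderOf (ClassGroup.mk0 P)) (σ (x : F))

/-- representatives of odd norm -/
def StRep2 : Prop := ∀ (D : ℕ) (F : Type) [Field F] [NumberField F] (s : F),
  FieldC2 D F s → ∀ c : ClassGroup (𝓞 F), ∃ a : nonZeroDivisors (Ideal (𝓞 F)),
    ClassGroup.mk0 a = c ∧ Odd (Ideal.absNorm (a : Ideal (𝓞 F)))

/-- the chain attached to an ideal -/
def StChain2 : Prop := ∀ (D : ℕ) (F : Type) [Field F] [NumberField F] (s : F),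
  FieldC2 D F s → ∀ (σ : F →+* ℂ) (P : Ideal (𝓞 F)), P.IsPrime → Ideal.absNorm P = 2 →
    ∀ (m : ℕ) (x : 𝓞 F), 0 < m → P ^ m = Ideal.span {x} → ∀ a : Ideal (𝓞 F), a ≠ ⊥ →
      ∃ u v : ℕ → ℂ, Chain m (σ (x : F)) u v ∧ ∀ i ≤ m, IsB σ (P ^ (m - i) * a) (u i) (v i)

/-- the period is not zero: `S` is a homogeneous lattice function of weight `k` -/
def StSum2 : Prop := ∀ (D : ℕ) (F : Type) [Field F] [NumberField F] (s : F),
  FieldC2 D F s → ∀ (σ : F →+* ℂ) (A : ValuationSubring ℂ), Above2 A →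
  ∀ (k : ℕ) (ψ : Ideal (𝓞 F) → ℂ), 4 ≤ k → Even k → Char σ A k ψ →
  ∀ (S : ℂ → ℂ → ℂ),
    (∀ w₁ w₂ v₁ v₂ : ℂ, Pos w₁ w₂ → Pos v₁ v₂ → lat w₁ w₂ = lat v₁ v₂ → S w₁ w₂ = S v₁ v₂) →
    (∀ c w₁ w₂ : ℂ, c ≠ 0 → Pos w₁ w₂ → S (c * w₁) (c * w₂) = (c ^ k)⁻¹ * S w₁ w₂) →
    (∀ (m : ℕ) (c : ℂ) (u v : ℕ → ℂ), 0 < m → Chain m c u v → UnitC A m c → ∀ i,
      eb k (e4 (u i) (v i)) (e6 (u i) (v i)) ≠ 0 ∧
      S (u i) (v i) / eb k (e4 (u i) (v i)) (e6 (u i) (v i)) - jv (u i) (v i) ∈ A.nonunits) →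
    ∀ (rep : ClassGroup (𝓞 F) → nonZeroDivisors (Ideal (𝓞 F))) (w₁ w₂ : ClassGroup (𝓞 F) → ℂ),
      (∀ c, ClassGroup.mk0 (rep c) = c) → (∀ c, IsB σ (rep c : Ideal (𝓞 F)) (w₁ c) (w₂ c)) →
      ∑ c, ψ (rep c : Ideal (𝓞 F)) * S (w₁ c) (w₂ c) ≠ 0

/-- Part (C2): the period is not zero. -/
def StmtC2 : Prop :=
  ∀ (D : ℕ) (F : Type) (_ : Field F) (_ : NumberField F) (s : F) (σ : F →+* ℂ)
    (V : ValuationSubring ℂ) (w r : ℕ) (f : CuspForm 𝒮ℒ (w : ℤ)) (ψ : Ideal (𝓞 F) →*₀ ℂ),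
    FieldC2 D F s → RZ.IsEigen f → RZ.IsHecke σ (w + 2 * r) ψ → RZ.ResTriv V ψ →
    ∃ c : RZ.Reps σ, RZ.period f r ψ c ≠ 0

end

end Pool.Agent.Lib.MP_7c08ba_nt.RZC2
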